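import Mathlib

/-!
Contraction minors of finite graphs: connected partitions, composition, extension of models.
-/

set_option autoImplicit false

namespace Pool.Agent.D0H6.CD

open Finset Classical

variable {V W U : Type}

/-- `S` is nonempty and any two of its vertices are joined by a walk inside `S`. -/
def ConnOn (G : SimpleGraph V) (S : Set V) : Prop :=
  S.Nonempty ∧ ∀ x ∈ S, ∀ y ∈ S,
    Relation.ReflTransGen (fun a b => G.Adj a b ∧ a ∈ S ∧ b ∈ S) x y

theorem rtg_mono {G : SimpleGraph V} {S T : Set V} (h : S ⊆ T) {x y : V}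
    (hxy : Relation.ReflTransGen (fun a b => G.Adj a b ∧ a ∈ S ∧ b ∈ S) x y) :
    Relation.ReflTransGen (fun a b => G.Adj a b ∧ a ∈ T ∧ b ∈ T) x y :=
  Relation.ReflTransGen.mono
    (p := fun a b => G.Adj a b ∧ a ∈ T ∧ b ∈ T)
    (fun _ _ hab => ⟨hab.1, h hab.2.1, h hab.2.2⟩) _ _ hxy

theorem connOn_iff (G : SimpleGraph V) (S : Set V) :
    ConnOn G S ↔ (G.induce S).Connected := by
  constructor
  · rintro ⟨⟨s, hs⟩, h⟩
    have : Nonempty S := ⟨⟨s, hs⟩⟩
    refine ⟨?_⟩
    rintro ⟨x, hx⟩ ⟨y, hy⟩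
    have key : ∀ z, Relation.ReflTransGen (fun a b => G.Adj a b ∧ a ∈ S ∧ b ∈ S) x z →
        ∀ hz : z ∈ S, (G.induce S).Reachable ⟨x, hx⟩ ⟨z, hz⟩ := by
      intro z hxz
      induction hxz with
      | refl => intro hz; exact SimpleGraph.Reachable.refl _
      | tail _ hbc ih =>
        intro hz
        refine (ih hbc.2.1).trans ?_
        refine SimpleGraph.Adj.reachable ?_
        exact hbc.1
    exact key y (h x hx y hy) hy
  · intro h
    refine ⟨Set.nonempty_coe_sort.1 h.nonempty, ?_⟩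
    intro x hx y hy
    have h1 := h.preconnected ⟨x, hx⟩ ⟨y, hy⟩
    rw [SimpleGraph.reachable_iff_reflTransGen] at h1
    exact Relation.ReflTransGen.lift (r := (G.induce S).Adj)
      (p := fun a b => G.Adj a b ∧ a ∈ S ∧ b ∈ S) (fun z : S => (z : V))
      (fun a b hab => ⟨hab, a.2, b.2⟩) _ _ h1

/-- `H` is a spanning contraction minor of `G`: the vertices of `G` are partitioned into
connected sets, one for each vertex of `H`, and every edge of `H` comes from an edge of `G`. -/
def SMinor (H : SimpleGraph W) (G : SimpleGraph V) : Prop :=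
  ∃ f : V → W, (∀ w, ConnOn G {v | f v = w}) ∧
    ∀ w w', H.Adj w w' → ∃ x y, f x = w ∧ f y = w' ∧ G.Adj x y

theorem conn_preimage {G : SimpleGraph V} {H : SimpleGraph W} {f : V → W}
    (hf : ∀ w, ConnOn G {v | f v = w})
    (hH : ∀ w w', H.Adj w w' → ∃ x y, f x = w ∧ f y = w' ∧ G.Adj x y)
    {T : Set W} (hT : ConnOn H T) : ConnOn G (f ⁻¹' T) := by
  obtain ⟨⟨w0, hw0⟩, hT2⟩ := hT
  obtain ⟨⟨v0, hv0⟩, -⟩ := hf w0
  refine ⟨⟨v0, by rw [Set.mem_preimage]; rw [Set.mem_ofPred_eq] at hv0; rwa [hv0]⟩, ?_⟩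
  intro x hx y hy
  have fib : ∀ a b, f a = f b → f a ∈ T →
      Relation.ReflTransGen (fun a b => G.Adj a b ∧ a ∈ f ⁻¹' T ∧ b ∈ f ⁻¹' T) a b := by
    intro a b hab ha
    refine rtg_mono ?_ ((hf (f a)).2 a rfl b hab.symm)
    intro c hc
    rw [Set.mem_ofPred_eq] at hc
    rw [Set.mem_preimage, hc]
    exact ha
  have key : ∀ w, Relation.ReflTransGen (fun a b => H.Adj a b ∧ a ∈ T ∧ b ∈ T) (f x) w →
      ∀ z, f z = w →
      Relation.ReflTransGen (fun a b => G.Adj a b ∧ a ∈ f ⁻¹' T ∧ b ∈ f ⁻¹' T) x z := by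
    intro w hw
    induction hw with
    | refl =>
      intro z hz
      exact fib x z hz.symm hx
    | tail _ hbc ih =>
      intro z hz
      obtain ⟨a, b, ha, hb, hab⟩ := hH _ _ hbc.1
      refine (ih a ha).trans ?_
      refine Relation.ReflTransGen.head ⟨hab, ?_, ?_⟩ (fib b z (hb.trans hz.symm) ?_)
      · rw [Set.mem_preimage, ha]; exact hbc.2.1
      · rw [Set.mem_preimage, hb]; exact hbc.2.2
      · rw [hb]; exact hbc.2.2
  exact key (f y) (hT2 _ hx _ hy) y rfl

theorem SMinor.trans {K : SimpleGraph U} {H : SimpleGraph W} {G : SimpleGraph V}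
    (h1 : SMinor K H) (h2 : SMinor H G) : SMinor K G := by
  obtain ⟨g, hg, hg2⟩ := h1
  obtain ⟨f, hf, hf2⟩ := h2
  refine ⟨g ∘ f, fun u => ?_, fun u u' huu => ?_⟩
  · have := conn_preimage hf hf2 (hg u)
    exact this
  · obtain ⟨w, w', hw, hw', hadj⟩ := hg2 u u' huu
    obtain ⟨x, y, hx, hy, hxy⟩ := hf2 w w' hadj
    exact ⟨x, y, by simp [hx, hw], by simp [hy, hw'], hxy⟩

theorem connOn_singleton (G : SimpleGraph V) (v : V) : ConnOn G {v} := by
  refine ⟨⟨v, rfl⟩, ?_⟩
  intro x hx y hy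
  rw [Set.mem_singleton_iff] at hx hy
  subst hx; subst hy
  exact Relation.ReflTransGen.refl

theorem SMinor.refl (G : SimpleGraph V) : SMinor G G :=
  ⟨id, fun w => by simpa using connOn_singleton G w, fun w w' h => ⟨w, w', rfl, rfl, h⟩⟩

theorem SMinor.mono_right {H : SimpleGraph W} {G G' : SimpleGraph V} (hGG : G ≤ G')
    (h : SMinor H G) : SMinor H G' := by
  obtain ⟨f, hf, hf2⟩ := h
  refine ⟨f, fun w => ⟨(hf w).1, fun x hx y hy => ?_⟩, fun w w' hw => ?_⟩
  · exact Relation.ReflTransGen.mono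
      (r := fun a b => G.Adj a b ∧ a ∈ {v | f v = w} ∧ b ∈ {v | f v = w})
      (p := fun a b => G'.Adj a b ∧ a ∈ {v | f v = w} ∧ b ∈ {v | f v = w})
      (fun _ _ hab => ⟨hGG hab.1, hab.2⟩) _ _ ((hf w).2 x hx y hy)
  · obtain ⟨x, y, hx, hy, hxy⟩ := hf2 w w' hw
    exact ⟨x, y, hx, hy, hGG hxy⟩

theorem SMinor.mono_left {H H' : SimpleGraph W} {G : SimpleGraph V} (hHH : H' ≤ H)
    (h : SMinor H G) : SMinor H' G := by
  obtain ⟨f, hf, hf2⟩ := h
  exact ⟨f, hf, fun w w' hw => hf2 w w' (hHH hw)⟩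

theorem SMinor.of_equiv {G : SimpleGraph V} (e : W ≃ V) : SMinor (G.comap e) G := by
  refine ⟨e.symm, fun w => ?_, fun w w' h => ⟨e w, e w', by simp, by simp, h⟩⟩
  have : {v | e.symm v = w} = {e w} := by
    ext v
    simp [Equiv.symm_apply_eq]
  rw [this]
  exact connOn_singleton G _

/-- A walk from inside `S` to outside `S` crosses the border of `S`. -/
theorem exists_border {G : SimpleGraph V} {T S : Set V} {x y : V}
    (h : Relation.ReflTransGen (fun a b => G.Adj a b ∧ a ∈ T ∧ b ∈ T) x y)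
    (hx : x ∈ S) (hy : y ∉ S) : ∃ a b, G.Adj a b ∧ a ∈ T ∧ b ∈ T ∧ a ∈ S ∧ b ∉ S := by
  induction h with
  | refl => exact absurd hx hy
  | tail hxb hbc ih =>
    rename_i b c
    by_cases hb : b ∈ S
    · exact ⟨b, c, hbc.1, hbc.2.1, hbc.2.2, hb, hy⟩
    · exact ih hb

theorem connOn_insert {G : SimpleGraph V} {S : Set V} (hS : ConnOn G S) {x y : V} (hx : x ∈ S)
    (hxy : G.Adj x y) : ConnOn G (insert y S) := by
  obtain ⟨hne, h⟩ := hS
  refine ⟨⟨x, Set.mem_insert_of_mem _ hx⟩, ?_⟩
  have hsub : S ⊆ insert y S := Set.subset_insert _ _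
  have h1 : ∀ a ∈ insert y S, Relation.ReflTransGen
      (fun a b => G.Adj a b ∧ a ∈ insert y S ∧ b ∈ insert y S) x a := by
    intro a ha
    rcases ha with rfl | ha
    · exact Relation.ReflTransGen.single ⟨hxy, hsub hx, Set.mem_insert _ _⟩
    · exact rtg_mono hsub (h x hx a ha)
  have h2 : ∀ a ∈ insert y S, Relation.ReflTransGen
      (fun a b => G.Adj a b ∧ a ∈ insert y S ∧ b ∈ insert y S) a x := by
    intro a ha
    rcases ha with rfl | ha
    · exact Relation.ReflTransGen.single ⟨hxy.symm, Set.mem_insert _ _, hsub hx⟩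
    · exact rtg_mono hsub (h a ha x hx)
  intro a ha b hb
  exact (h2 a ha).trans (h1 b hb)

/-- A connected partition of a part `S` of a connected set `T` extends to `T`. -/
theorem extend_aux [Finite V] {G : SimpleGraph V} {T : Set V} (hT : ConnOn G T) :
    ∀ n : ℕ, ∀ (S : Set V) (f : V → W), (T \ S).ncard = n → S ⊆ T → S.Nonempty →
      (∀ v ∈ S, ConnOn G {x | x ∈ S ∧ f x = f v}) →
      ∃ f' : V → W, (∀ v ∈ S, f' v = f v) ∧ (∀ v ∈ T, ∃ v' ∈ S, f' v = f v') ∧
        ∀ v ∈ T, ConnOn G {x | x ∈ T ∧ f' x = f' v} := by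
  intro n
  induction n with
  | zero =>
    intro S f hn hST hne hf
    have hfin : (T \ S).Finite := Set.toFinite _
    rw [Set.ncard_eq_zero hfin] at hn
    have hTS : T = S := Set.Subset.antisymm (Set.sdiff_eq_empty.1 hn) hST
    subst hTS
    exact ⟨f, fun v _ => rfl, fun v hv => ⟨v, hv, rfl⟩, hf⟩
  | succ n ih =>
    intro S f hn hST hne hf
    have hfin : (T \ S).Finite := Set.toFinite _
    have hne2 : (T \ S).Nonempty := by
      rw [← Set.ncard_pos hfin]; omega
    obtain ⟨t, htT, htS⟩ := hne2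
    obtain ⟨s, hs⟩ := hne
    obtain ⟨a, b, hab, haT, hbT, haS, hbS⟩ := exists_border (hT.2 s (hST hs) t htT) hs htS
    have hupd : ∀ v ∈ S, Function.update f b (f a) v = f v := by
      intro v hv
      rw [Function.update_of_ne]
      rintro rfl
      exact hbS hv
    have hcard : (T \ insert b S).ncard = n := by
      have h1 : T \ insert b S = (T \ S) \ {b} := by
        ext v
        simp only [Set.mem_sdiff, Set.mem_insert_iff, Set.mem_singleton_iff]
        tauto
      rw [h1, Set.ncard_sdiff_singleton_of_mem (show b ∈ T \ S from ⟨hbT, hbS⟩), hn]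
      rfl
    obtain ⟨f', h1, h2, h3⟩ := ih (insert b S) (Function.update f b (f a)) hcard
      (Set.insert_subset hbT hST) ⟨b, Set.mem_insert _ _⟩ (by
        have hset : ∀ w, w ≠ f a → {x | x ∈ insert b S ∧ Function.update f b (f a) x = w} =
            {x | x ∈ S ∧ f x = w} := by
          intro w hw
          ext x
          simp only [Set.mem_ofPred_eq, Set.mem_insert_iff]
          constructor
          · rintro ⟨rfl | hx, h⟩
            · rw [Function.update_self] at h
              exact absurd h.symm hw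
            · rw [hupd x hx] at h
              exact ⟨hx, h⟩
          · rintro ⟨hx, h⟩
            exact ⟨Or.inr hx, by rw [hupd x hx]; exact h⟩
        have hseta : {x | x ∈ insert b S ∧ Function.update f b (f a) x = f a} =
            insert b {x | x ∈ S ∧ f x = f a} := by
          ext x
          simp only [Set.mem_ofPred_eq, Set.mem_insert_iff]
          constructor
          · rintro ⟨rfl | hx, h⟩
            · exact Or.inl rfl
            · rw [hupd x hx] at h
              exact Or.inr ⟨hx, h⟩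
          · rintro (rfl | ⟨hx, h⟩)
            · exact ⟨Or.inl rfl, by rw [Function.update_self]⟩
            · exact ⟨Or.inr hx, by rw [hupd x hx]; exact h⟩
        intro v hv
        by_cases hva : Function.update f b (f a) v = f a
        · rw [hva, hseta]
          exact connOn_insert (hf a haS) ⟨haS, rfl⟩ hab
        · rw [hset _ hva]
          rcases hv with rfl | hv
          · rw [Function.update_self] at hva
            exact absurd rfl hva
          · rw [hupd v hv]
            exact hf v hv)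
    refine ⟨f', fun v hv => ?_, fun v hv => ?_, h3⟩
    · rw [h1 v (Set.mem_insert_of_mem _ hv), hupd v hv]
    · obtain ⟨v', hv', hvv⟩ := h2 v hv
      rcases hv' with rfl | hv'
      · rw [Function.update_self] at hvv
        exact ⟨a, haS, hvv⟩
      · rw [hupd v' hv'] at hvv
        exact ⟨v', hv', hvv⟩

theorem extend [Finite V] {G : SimpleGraph V} {T S : Set V} (hT : ConnOn G T) (f : V → W)
    (hST : S ⊆ T) (hne : S.Nonempty) (hf : ∀ v ∈ S, ConnOn G {x | x ∈ S ∧ f x = f v}) :
    ∃ f' : V → W, (∀ v ∈ S, f' v = f v) ∧ (∀ v ∈ T, ∃ v' ∈ S, f' v = f v') ∧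
      ∀ v ∈ T, ConnOn G {x | x ∈ T ∧ f' x = f' v} :=
  extend_aux hT _ S f rfl hST hne hf

end Pool.Agent.D0H6.CD
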