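import Pool.Agent.D0H6.CD.Basic

/-!
Counting edges and missing triangles inside a growing set of vertices.
-/

set_option autoImplicit false

namespace Pool.Agent.D0H6.CD

open Finset Classical

variable {V : Type}

/-- the neighbours of `y` in `S` -/
noncomputable def nb (G : SimpleGraph V) (S : Finset V) (y : V) : Finset V :=
  S.filter (fun p => G.Adj y p)

/-- twice the number of edges inside `S` -/
noncomputable def E2 (G : SimpleGraph V) (S : Finset V) : ℕ := ∑ p ∈ S, #(nb G S p)

/-- the number of common neighbours of `p` and `q` in `S` -/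
noncomputable def tri (G : SimpleGraph V) (S : Finset V) (p q : V) : ℕ :=
  #(S.filter (fun r => G.Adj p r ∧ G.Adj q r))

/-- twice the number of triangles that are missing inside `S` for every edge inside `S` to be in
two triangles -/
noncomputable def D2 (G : SimpleGraph V) (S : Finset V) : ℕ :=
  ∑ p ∈ S, ∑ q ∈ nb G S p, (2 - tri G S p q)

theorem mem_nb {G : SimpleGraph V} {S : Finset V} {y p : V} :
    p ∈ nb G S y ↔ p ∈ S ∧ G.Adj y p := by
  unfold nb; rw [mem_filter]

theorem nb_insert_self {G : SimpleGraph V} {S : Finset V} {y : V} :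
    nb G (insert y S) y = nb G S y := by
  ext p
  rw [mem_nb, mem_nb, mem_insert]
  constructor
  · rintro ⟨rfl | h, h2⟩
    · exact absurd h2 (G.loopless.irrefl _)
    · exact ⟨h, h2⟩
  · rintro ⟨h, h2⟩; exact ⟨Or.inr h, h2⟩

theorem nb_insert_adj {G : SimpleGraph V} {S : Finset V} {y p : V}
    (hp : G.Adj p y) : nb G (insert y S) p = insert y (nb G S p) := by
  ext q
  rw [mem_nb, mem_insert, mem_insert, mem_nb]
  constructor
  · rintro ⟨rfl | h, h2⟩
    · exact Or.inl rfl
    · exact Or.inr ⟨h, h2⟩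
  · rintro (rfl | ⟨h, h2⟩)
    · exact ⟨Or.inl rfl, hp⟩
    · exact ⟨Or.inr h, h2⟩

theorem nb_insert_not_adj {G : SimpleGraph V} {S : Finset V} {y p : V}
    (hp : ¬ G.Adj p y) : nb G (insert y S) p = nb G S p := by
  ext q
  rw [mem_nb, mem_insert, mem_nb]
  constructor
  · rintro ⟨rfl | h, h2⟩
    · exact absurd h2 hp
    · exact ⟨h, h2⟩
  · rintro ⟨h, h2⟩; exact ⟨Or.inr h, h2⟩

theorem card_nb_insert {G : SimpleGraph V} {S : Finset V} {y p : V} (hy : y ∉ S) :
    #(nb G (insert y S) p) = #(nb G S p) + if G.Adj p y then 1 else 0 := by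
  by_cases h : G.Adj p y
  · rw [nb_insert_adj h, if_pos h, card_insert_of_notMem]
    rw [mem_nb]; exact fun hh => hy hh.1
  · rw [nb_insert_not_adj h, if_neg h, add_zero]

theorem E2_insert {G : SimpleGraph V} {S : Finset V} {y : V} (hy : y ∉ S) :
    E2 G (insert y S) = E2 G S + 2 * #(nb G S y) := by
  unfold E2
  rw [sum_insert hy, nb_insert_self]
  have h1 : ∑ p ∈ S, #(nb G (insert y S) p) =
      ∑ p ∈ S, (#(nb G S p) + if G.Adj p y then 1 else 0) :=
    sum_congr rfl (fun p _ => card_nb_insert hy)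
  rw [h1, sum_add_distrib, ← card_filter]
  have h2 : (S.filter (fun p => G.Adj p y)) = nb G S y := by
    ext p; rw [mem_nb, mem_filter, G.adj_comm]
  rw [h2]; ring

theorem tri_comm (G : SimpleGraph V) (S : Finset V) (p q : V) : tri G S p q = tri G S q p := by
  unfold tri
  congr 1
  ext r
  simp only [mem_filter]
  tauto

theorem tri_insert_self {G : SimpleGraph V} {S : Finset V} {y q : V} :
    tri G (insert y S) y q = #(nb G (nb G S y) q) := by
  unfold tri
  congr 1
  ext r
  rw [mem_nb, mem_nb, mem_filter, mem_insert]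
  constructor
  · rintro ⟨rfl | h, h2, h3⟩
    · exact absurd h2 (G.loopless.irrefl _)
    · exact ⟨⟨h, h2⟩, h3⟩
  · rintro ⟨⟨h, h2⟩, h3⟩; exact ⟨Or.inr h, h2, h3⟩

theorem tri_insert {G : SimpleGraph V} {S : Finset V} {y p q : V} (hy : y ∉ S) :
    tri G (insert y S) p q = tri G S p q + if G.Adj p y ∧ G.Adj q y then 1 else 0 := by
  unfold tri
  rw [filter_insert]
  by_cases h : G.Adj p y ∧ G.Adj q y
  · rw [if_pos h, if_pos h, card_insert_of_notMem]
    rw [mem_filter]; exact fun hh => hy hh.1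
  · rw [if_neg h, if_neg h, add_zero]

theorem D2_insert {G : SimpleGraph V} {S : Finset V} {y : V} (hy : y ∉ S) :
    D2 G S + 2 * ∑ p ∈ nb G S y, (2 - #(nb G (nb G S y) p)) ≤
      D2 G (insert y S) + ∑ p ∈ nb G S y, #(nb G (nb G S y) p) := by
  set B := nb G S y with hB
  have hD : D2 G (insert y S) = ∑ q ∈ B, (2 - #(nb G B q)) +
      ∑ p ∈ S, ∑ q ∈ nb G (insert y S) p, (2 - tri G (insert y S) p q) := by
    unfold D2
    rw [sum_insert hy, nb_insert_self]
    congr 1
    refine sum_congr rfl (fun q _ => ?_)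
    rw [tri_insert_self]
  have hpt : ∀ p ∈ S, ∑ q ∈ nb G S p, (2 - tri G S p q) +
      (if G.Adj p y then 2 - #(nb G B p) else 0) ≤
      ∑ q ∈ nb G (insert y S) p, (2 - tri G (insert y S) p q) +
      (if G.Adj p y then #(nb G B p) else 0) := by
    intro p hp
    by_cases h : G.Adj p y
    · rw [if_pos h, if_pos h, nb_insert_adj h, sum_insert (by rw [mem_nb]; exact fun hh => hy hh.1),
        tri_comm, tri_insert_self]
      have h1 : ∑ q ∈ nb G S p, (2 - tri G S p q) ≤
          ∑ q ∈ nb G S p, ((2 - tri G (insert y S) p q) + if G.Adj q y then 1 else 0) := by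
        refine sum_le_sum (fun q _ => ?_)
        rw [tri_insert hy]
        by_cases hq : G.Adj q y
        · rw [if_pos ⟨h, hq⟩, if_pos hq]; omega
        · rw [if_neg (fun hh => hq hh.2), if_neg hq]; omega
      rw [sum_add_distrib, ← card_filter] at h1
      have h2 : (nb G S p).filter (fun q => G.Adj q y) = nb G B p := by
        ext q
        rw [mem_filter, mem_nb, mem_nb, hB, mem_nb, G.adj_comm q y]
        tauto
      rw [h2] at h1
      change _ + (2 - #(nb G B p)) ≤ (2 - #(nb G B p)) + _ + _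
      omega
    · rw [if_neg h, if_neg h, nb_insert_not_adj h]
      refine Nat.add_le_add_right (sum_le_sum (fun q _ => ?_)) 0
      rw [tri_insert hy, if_neg (fun hh => h hh.1)]
      omega
  have hsum := sum_le_sum hpt
  rw [sum_add_distrib, sum_add_distrib, ← sum_filter, ← sum_filter] at hsum
  have h3 : S.filter (fun p => G.Adj p y) = B := by
    ext p; rw [hB, mem_nb, mem_filter, G.adj_comm]
  rw [h3] at hsum
  rw [hD]
  change D2 G S + _ ≤ _ at hsum
  omega

/-- the basic step: a new vertex with `b` neighbours in `S`, `2 ≤ b ≤ 6` -/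
theorem step_sum {G : SimpleGraph V} {B : Finset V} (h2 : 2 ≤ #B) (h6 : #B ≤ 6) :
    ∑ p ∈ B, #(nb G B p) + 18 ≤ 2 * ∑ p ∈ B, (2 - #(nb G B p)) + 8 * #B := by
  have hd : ∀ p ∈ B, #(nb G B p) + 1 ≤ #B := by
    intro p hp
    have : nb G B p ⊆ B.erase p := by
      intro q hq
      rw [mem_nb] at hq
      rw [mem_erase]
      refine ⟨?_, hq.1⟩
      rintro rfl
      exact G.loopless.irrefl _ hq.2
    have h := card_le_card this
    rw [card_erase_of_mem hp] at h
    have : 0 < #B := by omega
    omega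
  have key : ∀ c : ℕ, (∀ d : ℕ, d + 1 ≤ #B → d + c ≤ 2 * (2 - d) + 8) → 18 ≤ #B * c →
      ∑ p ∈ B, #(nb G B p) + 18 ≤ 2 * ∑ p ∈ B, (2 - #(nb G B p)) + 8 * #B := by
    intro c hc h18
    have h1 : ∑ p ∈ B, (#(nb G B p) + c) ≤ ∑ p ∈ B, (2 * (2 - #(nb G B p)) + 8) :=
      sum_le_sum (fun p hp => hc _ (hd p hp))
    rw [sum_add_distrib, sum_add_distrib, ← mul_sum, sum_const, sum_const, smul_eq_mul,
      smul_eq_mul] at h1
    omega
  have hcases : #B = 2 ∨ #B = 3 ∨ #B = 4 ∨ #B = 5 ∨ #B = 6 := by omega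
  rcases hcases with h | h | h | h | h
  · exact key 9 (fun d hd => by omega) (by omega)
  · exact key 6 (fun d hd => by omega) (by omega)
  · exact key 5 (fun d hd => by omega) (by omega)
  · exact key 4 (fun d hd => by omega) (by omega)
  · exact key 3 (fun d hd => by omega) (by omega)

/-- the potential does not decrease -/
theorem pot_step {G : SimpleGraph V} {S : Finset V} {y : V} (hy : y ∉ S) {c : ℕ}
    (h2 : 2 ≤ #(nb G S y)) (h6 : #(nb G S y) ≤ 6)
    (h : 18 * #S + c ≤ D2 G S + 4 * E2 G S + 24) :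
    18 * #(insert y S) + c ≤ D2 G (insert y S) + 4 * E2 G (insert y S) + 24 := by
  rw [E2_insert hy, card_insert_of_notMem hy]
  have h1 := D2_insert (G := G) hy
  have h3 := step_sum (G := G) h2 h6
  omega

/-- an improved step: three neighbours which do not form a triangle, or four or five neighbours -/
theorem pot_step' {G : SimpleGraph V} {S : Finset V} {y : V} (hy : y ∉ S)
    (h3 : 3 ≤ #(nb G S y)) (h5 : #(nb G S y) ≤ 5)
    (hK : #(nb G S y) = 3 → ∃ p ∈ nb G S y, ∃ q ∈ nb G S y, p ≠ q ∧ ¬ G.Adj p q)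
    (h : 18 * #S ≤ D2 G S + 4 * E2 G S + 24) :
    18 * #(insert y S) + 2 ≤ D2 G (insert y S) + 4 * E2 G (insert y S) + 24 := by
  rw [E2_insert hy, card_insert_of_notMem hy]
  have h1 := D2_insert (G := G) hy
  set B := nb G S y with hB
  suffices hs : ∑ p ∈ B, #(nb G B p) + 20 ≤ 2 * ∑ p ∈ B, (2 - #(nb G B p)) + 8 * #B by omega
  have hd : ∀ p ∈ B, #(nb G B p) + 1 ≤ #B := by
    intro p hp
    have : nb G B p ⊆ B.erase p := by
      intro q hq
      rw [mem_nb] at hq
      rw [mem_erase]
      refine ⟨?_, hq.1⟩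
      rintro rfl
      exact G.loopless.irrefl _ hq.2
    have h := card_le_card this
    rw [card_erase_of_mem hp] at h
    have : 0 < #B := by omega
    omega
  have key : ∀ c : ℕ, (∀ d : ℕ, d + 1 ≤ #B → d + c ≤ 2 * (2 - d) + 8) → 20 ≤ #B * c →
      ∑ p ∈ B, #(nb G B p) + 20 ≤ 2 * ∑ p ∈ B, (2 - #(nb G B p)) + 8 * #B := by
    intro c hc h18
    have h1 : ∑ p ∈ B, (#(nb G B p) + c) ≤ ∑ p ∈ B, (2 * (2 - #(nb G B p)) + 8) :=
      sum_le_sum (fun p hp => hc _ (hd p hp))
    rw [sum_add_distrib, sum_add_distrib, ← mul_sum, sum_const, sum_const, smul_eq_mul,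
      smul_eq_mul] at h1
    omega
  have hcases : #B = 3 ∨ #B = 4 ∨ #B = 5 := by omega
  rcases hcases with h | h | h
  · obtain ⟨p, hp, q, hq, hpq, hnadj⟩ := hK h
    -- `p` has at most one neighbour in `B`
    have hp1 : #(nb G B p) ≤ 1 := by
      have : nb G B p ⊆ (B.erase p).erase q := by
        intro r hr
        rw [mem_nb] at hr
        rw [mem_erase, mem_erase]
        refine ⟨?_, ?_, hr.1⟩
        · rintro rfl; exact hnadj hr.2
        · rintro rfl; exact G.loopless.irrefl _ hr.2
      have h := card_le_card this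
      rw [card_erase_of_mem (by rw [mem_erase]; exact ⟨hpq.symm, hq⟩), card_erase_of_mem hp] at h
      omega
    have h1 : ∑ r ∈ B, (#(nb G B r) + (6 + if r = p then 3 else 0)) ≤
        ∑ r ∈ B, (2 * (2 - #(nb G B r)) + 8) := by
      refine sum_le_sum (fun r hr => ?_)
      have := hd r hr
      by_cases hrp : r = p
      · subst hrp
        rw [if_pos rfl]; omega
      · rw [if_neg hrp]; omega
    have h2 : ∑ r ∈ B, (if r = p then 3 else 0) = 3 := by
      rw [sum_ite_eq' B p (fun _ => 3), if_pos hp]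
    rw [sum_add_distrib, sum_add_distrib, sum_add_distrib, h2, ← mul_sum, sum_const, sum_const,
      smul_eq_mul, smul_eq_mul] at h1
    omega
  · exact key 5 (fun d hd => by omega) (by omega)
  · exact key 4 (fun d hd => by omega) (by omega)

end Pool.Agent.D0H6.CD
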