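import Pool.Agent.D0H6.CD.Count

/-!
Ordered adjacent pairs; quotients of graphs; contraction of an edge and of a connected set.
-/

set_option autoImplicit false

namespace Pool.Agent.D0H6.CD

open Finset Classical

variable {V W U : Type}

/-- the number of ordered adjacent pairs, twice the number of edges -/
noncomputable def dc (G : SimpleGraph V) : ℕ := {p : V × V | G.Adj p.1 p.2}.ncard

theorem dc_le_of_inj [Finite V] {H : SimpleGraph W} {G : SimpleGraph V} (φ : W × W → V × V)
    (h : ∀ p : W × W, H.Adj p.1 p.2 → G.Adj (φ p).1 (φ p).2)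
    (hinj : ∀ p q : W × W, H.Adj p.1 p.2 → H.Adj q.1 q.2 → φ p = φ q → p = q) : dc H ≤ dc G :=
  Set.ncard_le_ncard_of_injOn φ (fun p hp => h p hp) (fun p hp q hq hpq => hinj p q hp hq hpq)
    (Set.toFinite _)

theorem dc_mono [Finite V] {H G : SimpleGraph V} (h : H ≤ G) : dc H ≤ dc G :=
  dc_le_of_inj id (fun _ hp => h hp) (fun _ _ _ _ h => h)

theorem dc_congr [Finite V] [Finite W] {H : SimpleGraph W} {G : SimpleGraph V} (e : W ≃ V)
    (h : ∀ x y, H.Adj x y ↔ G.Adj (e x) (e y)) : dc H = dc G := by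
  apply le_antisymm
  · refine dc_le_of_inj (fun p => (e p.1, e p.2)) (fun p hp => (h _ _).1 hp) ?_
    rintro p q _ _ hpq
    rw [Prod.mk.injEq] at hpq
    exact Prod.ext (e.injective hpq.1) (e.injective hpq.2)
  · refine dc_le_of_inj (fun p => (e.symm p.1, e.symm p.2)) (fun p hp => (h _ _).2 (by simpa using hp)) ?_
    rintro p q _ _ hpq
    rw [Prod.mk.injEq] at hpq
    exact Prod.ext (e.symm.injective hpq.1) (e.symm.injective hpq.2)

theorem E2_eq (G : SimpleGraph V) (S : Finset V) :
    E2 G S = {p : V × V | p.1 ∈ S ∧ p.2 ∈ S ∧ G.Adj p.1 p.2}.ncard := by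
  have h1 : {p : V × V | p.1 ∈ S ∧ p.2 ∈ S ∧ G.Adj p.1 p.2} =
      ((S.sigma (fun p => nb G S p)).image (fun x => ((x.1, x.2) : V × V)) : Finset (V × V)) := by
    ext ⟨a, b⟩
    simp only [Set.mem_ofPred_eq, coe_image, Set.mem_image, mem_coe, mem_sigma, mem_nb]
    constructor
    · rintro ⟨ha, hb, hab⟩
      exact ⟨⟨a, b⟩, ⟨ha, hb, hab⟩, rfl⟩
    · rintro ⟨⟨a', b'⟩, ⟨h1, h2, h3⟩, h4⟩
      simp only [Prod.mk.injEq] at h4
      obtain ⟨rfl, rfl⟩ := h4
      exact ⟨h1, h2, h3⟩
  rw [h1, Set.ncard_coe_finset, card_image_of_injective, card_sigma]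
  · rfl
  · rintro ⟨a, b⟩ ⟨c, d⟩ h
    simp only [Prod.mk.injEq] at h
    obtain ⟨rfl, rfl⟩ := h
    rfl

theorem E2_univ [Fintype V] (G : SimpleGraph V) : E2 G univ = dc G := by
  rw [E2_eq, dc]
  congr 1
  ext p
  simp

theorem dc_induce_ncard (G : SimpleGraph V) (S : Set V) :
    dc (G.induce S) = {p : V × V | p.1 ∈ S ∧ p.2 ∈ S ∧ G.Adj p.1 p.2}.ncard := by
  unfold dc
  symm
  refine Set.ncard_congr (fun p hp => (⟨p.1, hp.1⟩, ⟨p.2, hp.2.1⟩)) ?_ ?_ ?_
  · rintro ⟨a, b⟩ hp
    exact hp.2.2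
  · rintro ⟨a, b⟩ ⟨c, d⟩ h1 h2 h
    simp only [Prod.mk.injEq, Subtype.mk.injEq] at h
    obtain ⟨rfl, rfl⟩ := h
    rfl
  · rintro ⟨⟨a, ha⟩, ⟨b, hb⟩⟩ h
    exact ⟨(a, b), ⟨ha, hb, h⟩, rfl⟩

theorem dc_induce (G : SimpleGraph V) (S : Finset V) :
    dc (G.induce (S : Set V)) = E2 G S := by
  rw [dc_induce_ncard, E2_eq]
  rfl

theorem dc_eq_two_mul [Finite V] (G : SimpleGraph V) : dc G = 2 * G.edgeSet.ncard := by
  have := Fintype.ofFinite V
  have h := G.sum_degrees_eq_twice_card_edges
  have h1 : G.edgeSet.ncard = #G.edgeFinset := by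
    rw [← SimpleGraph.coe_edgeFinset, Set.ncard_coe_finset]
  rw [h1, ← h, ← E2_univ]
  unfold E2
  refine sum_congr rfl (fun v _ => ?_)
  rw [← SimpleGraph.card_neighborFinset_eq_degree]
  congr 1
  ext w
  rw [mem_nb, SimpleGraph.mem_neighborFinset]
  simp

/-- quotient of a graph by a map -/
def quo (f : V → W) (G : SimpleGraph V) : SimpleGraph W where
  Adj w w' := w ≠ w' ∧ ∃ x y, f x = w ∧ f y = w' ∧ G.Adj x y
  symm := ⟨by
    rintro w w' ⟨h, x, y, hx, hy, hxy⟩
    exact ⟨h.symm, y, x, hy, hx, hxy.symm⟩⟩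
  loopless := ⟨fun w h => h.1 rfl⟩

theorem sminor_quo {f : V → W} {G : SimpleGraph V} (hf : ∀ w, ConnOn G {v | f v = w}) :
    SMinor (quo f G) G :=
  ⟨f, hf, fun _ _ h => h.2⟩

theorem conn_image {G : SimpleGraph V} {H : SimpleGraph W} {f : V → W} {S : Set V}
    (hf : ∀ x y, x ∈ S → y ∈ S → G.Adj x y → f x = f y ∨ H.Adj (f x) (f y))
    (hS : ConnOn G S) : ConnOn H (f '' S) := by
  obtain ⟨⟨s, hs⟩, h⟩ := hS
  refine ⟨⟨f s, s, hs, rfl⟩, ?_⟩
  rintro _ ⟨x, hx, rfl⟩ _ ⟨y, hy, rfl⟩
  have := h x hx y hy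
  induction this with
  | refl => exact Relation.ReflTransGen.refl
  | @tail b c _ hbc ih =>
    have h1 := ih hbc.2.1
    rcases hf b c hbc.2.1 hbc.2.2 hbc.1 with h2 | h2
    · rw [← h2]; exact h1
    · exact h1.tail ⟨h2, ⟨b, hbc.2.1, rfl⟩, ⟨c, hbc.2.2, rfl⟩⟩

theorem conn_quo {f : V → W} {G : SimpleGraph V} (hG : ConnOn G Set.univ)
    (hf : Function.Surjective f) : ConnOn (quo f G) Set.univ := by
  have := conn_image (H := quo f G) (f := f) (S := Set.univ) (G := G) (fun x y _ _ hxy => ?_) hG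
  · rwa [Set.image_univ_of_surjective hf] at this
  · by_cases h : f x = f y
    · exact Or.inl h
    · exact Or.inr ⟨h, x, y, rfl, rfl, hxy⟩

theorem dc_quo_ge [Finite V] [Finite W] {f : V → W} {G : SimpleGraph V} (X : Set (V × V))
    (hinj : ∀ p q : V × V, G.Adj p.1 p.2 → G.Adj q.1 q.2 → p ∉ X → q ∉ X → f p.1 = f q.1 →
      f p.2 = f q.2 → p = q)
    (hne : ∀ p : V × V, G.Adj p.1 p.2 → p ∉ X → f p.1 ≠ f p.2) :
    dc G ≤ dc (quo f G) + X.ncard := by
  have h1 : ({p : V × V | G.Adj p.1 p.2} \ X).ncard ≤ dc (quo f G) := by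
    refine Set.ncard_le_ncard_of_injOn (fun p => (f p.1, f p.2)) ?_ ?_ (Set.toFinite _)
    · rintro p ⟨hp, hpX⟩
      exact ⟨hne p hp hpX, p.1, p.2, rfl, rfl, hp⟩
    · rintro p ⟨hp, hpX⟩ q ⟨hq, hqX⟩ hpq
      simp only [Prod.mk.injEq] at hpq
      exact hinj p q hp hq hpX hqX hpq.1 hpq.2
  have h2 : dc G ≤ ({p : V × V | G.Adj p.1 p.2} \ X).ncard + X.ncard := by
    unfold dc
    have h3 := Set.ncard_union_le ({p : V × V | G.Adj p.1 p.2} \ X) X
    refine le_trans (Set.ncard_le_ncard ?_ (Set.toFinite _)) h3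
    intro p hp
    by_cases hX : p ∈ X
    · exact Or.inr hX
    · exact Or.inl ⟨hp, hX⟩
  omega

/-- a graph contains every nonempty part of it as a spanning contraction minor, if connected -/
theorem sminor_induce [Finite V] {G : SimpleGraph V} (hG : ConnOn G Set.univ) {S : Set V}
    (hS : S.Nonempty) : SMinor (G.induce S) G := by
  obtain ⟨f', h1, h2, h3⟩ := extend (T := Set.univ) (S := S) hG (id : V → V) (Set.subset_univ _) hS
    (by
      intro v hv
      have : {x | x ∈ S ∧ id x = id v} = {v} := by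
        ext x
        simp only [Set.mem_ofPred_eq, id, Set.mem_singleton_iff]
        constructor
        · exact fun h => h.2
        · rintro rfl; exact ⟨hv, rfl⟩
      rw [this]
      exact connOn_singleton G v)
  have hmem : ∀ v, f' v ∈ S := by
    intro v
    obtain ⟨v', hv', h⟩ := h2 v (Set.mem_univ _)
    rw [h]; exact hv'
  refine ⟨fun v => ⟨f' v, hmem v⟩, fun w => ?_, fun w w' h => ?_⟩
  · have h4 := h3 w.1 (Set.mem_univ _)
    have h5 := h1 w.1 w.2
    have h6 : {x | x ∈ Set.univ ∧ f' x = f' w.1} = {v | (⟨f' v, hmem v⟩ : S) = w} := by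
      ext x
      simp only [Set.mem_ofPred_eq, Set.mem_univ, true_and]
      rw [h5, Subtype.ext_iff]
      rfl
    rw [h6] at h4
    exact h4
  · refine ⟨w.1, w'.1, ?_, ?_, h⟩
    · exact Subtype.ext (h1 _ w.2)
    · exact Subtype.ext (h1 _ w'.2)

theorem connOn_induce_univ {G : SimpleGraph V} {S : Set V} (hS : ConnOn G S) :
    ConnOn (G.induce S) Set.univ := by
  obtain ⟨⟨s, hs⟩, h⟩ := hS
  refine ⟨⟨⟨s, hs⟩, trivial⟩, ?_⟩
  rintro ⟨x, hx⟩ _ ⟨y, hy⟩ _
  have key : ∀ z, Relation.ReflTransGen (fun a b => G.Adj a b ∧ a ∈ S ∧ b ∈ S) x z →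
      ∀ hz : z ∈ S, Relation.ReflTransGen
        (fun a b => (G.induce S).Adj a b ∧ a ∈ Set.univ ∧ b ∈ Set.univ) (⟨x, hx⟩ : S) ⟨z, hz⟩ := by
    intro z hxz
    induction hxz with
    | refl => intro hz; exact Relation.ReflTransGen.refl
    | tail _ hbc ih =>
      intro hz
      exact (ih hbc.2.1).tail ⟨hbc.1, trivial, trivial⟩
  exact key y (h x hx y hy) hy

/-- contraction of an edge with at most one common neighbour -/
theorem contract_edge [Finite V] {G : SimpleGraph V} (hG : ConnOn G Set.univ) {x y : V}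
    (hxy : G.Adj x y) (hc : {z | G.Adj x z ∧ G.Adj y z}.ncard ≤ 1) :
    ∃ (W : Type) (_ : Finite W) (H : SimpleGraph W), SMinor H G ∧ Nat.card W + 1 = Nat.card V ∧
      ConnOn H Set.univ ∧ dc G ≤ dc H + 4 := by
  have hne : x ≠ y := hxy.ne
  let f : V → {v : V // v ≠ y} := fun v => if h : v = y then ⟨x, hne⟩ else ⟨v, h⟩
  have hfy : f y = ⟨x, hne⟩ := by simp [f]
  have hf : ∀ v (h : v ≠ y), f v = ⟨v, h⟩ := fun v h => by simp [f, h]
  have hfx : f x = ⟨x, hne⟩ := hf x hne
  have hfib : ∀ a b, f a = f b → a ≠ b → (a = x ∧ b = y) ∨ (a = y ∧ b = x) := by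
    intro a b hab hne'
    by_cases ha : a = y
    · by_cases hb : b = y
      · exact absurd (ha.trans hb.symm) hne'
      · rw [ha, hfy, hf b hb] at hab
        exact Or.inr ⟨ha, (congrArg Subtype.val hab).symm⟩
    · by_cases hb : b = y
      · rw [hb, hfy, hf a ha] at hab
        exact Or.inl ⟨congrArg Subtype.val hab, hb⟩
      · rw [hf a ha, hf b hb] at hab
        exact absurd (congrArg Subtype.val hab) hne'
  have hsurj : Function.Surjective f := fun w => ⟨w.1, hf w.1 w.2⟩
  have hconn : ∀ w, ConnOn G {v | f v = w} := by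
    intro w
    by_cases hw : w = ⟨x, hne⟩
    · have : {v | f v = w} = insert y {x} := by
        ext v
        simp only [Set.mem_ofPred_eq, Set.mem_insert_iff, Set.mem_singleton_iff]
        constructor
        · intro h
          by_cases hv : v = y
          · exact Or.inl hv
          · rw [hf v hv, hw] at h
            exact Or.inr (congrArg Subtype.val h)
        · rintro (rfl | rfl)
          · rw [hfy, hw]
          · rw [hfx, hw]
      rw [this]
      exact connOn_insert (connOn_singleton G x) rfl hxy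
    · have : {v | f v = w} = {w.1} := by
        ext v
        simp only [Set.mem_ofPred_eq, Set.mem_singleton_iff]
        constructor
        · intro h
          by_cases hv : v = y
          · rw [hv, hfy] at h
            exact absurd h.symm hw
          · rw [hf v hv] at h
            exact congrArg Subtype.val h
        · intro h
          rw [h, hf _ w.2]
      rw [this]
      exact connOn_singleton G _
  refine ⟨{v : V // v ≠ y}, inferInstance, quo f G, sminor_quo hconn, ?_, conn_quo hG hsurj, ?_⟩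
  · have h1 : Nat.card {v : V // v ≠ y} = ({y}ᶜ : Set V).ncard := rfl
    rw [h1]
    have h2 := Set.ncard_add_ncard_compl ({y} : Set V)
    rw [Set.ncard_singleton] at h2
    omega
  · set C := {z | G.Adj x z ∧ G.Adj y z} with hC
    let X : Set (V × V) := ({(x, y)} ∪ {(y, x)}) ∪ ((fun z => (y, z)) '' C ∪ (fun z => (z, y)) '' C)
    have hX : X.ncard ≤ 4 := by
      have h1 := Set.ncard_union_le ({(x, y)} ∪ {(y, x)} : Set (V × V))
        ((fun z => (y, z)) '' C ∪ (fun z => (z, y)) '' C)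
      have h2 := Set.ncard_union_le ({(x, y)} : Set (V × V)) {(y, x)}
      have h3 := Set.ncard_union_le ((fun z => (y, z)) '' C) ((fun z => (z, y)) '' C)
      have h4 := Set.ncard_image_le (f := fun z => (y, z)) (Set.toFinite C)
      have h5 := Set.ncard_image_le (f := fun z => (z, y)) (Set.toFinite C)
      rw [Set.ncard_singleton, Set.ncard_singleton] at h2
      change X.ncard ≤ _ at h1
      omega
    have hmain := dc_quo_ge (f := f) (G := G) X ?_ ?_
    · omega
    · rintro ⟨a, b⟩ ⟨c, d⟩ hab hcd h1 h2 hac hbd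
      simp only at hab hcd hac hbd
      simp only [X, Set.mem_union, Set.mem_singleton_iff, Set.mem_image, not_or, not_exists,
        not_and, Prod.mk.injEq] at h1 h2
      obtain ⟨⟨h11, h12⟩, h13, h14⟩ := h1
      obtain ⟨⟨h21, h22⟩, h23, h24⟩ := h2
      by_cases hac' : a = c
      · subst hac'
        by_cases hbd' : b = d
        · subst hbd'; rfl
        · exfalso
          rcases hfib b d hbd hbd' with ⟨rfl, rfl⟩ | ⟨rfl, rfl⟩
          · exact h24 a ⟨hab.symm, hcd.symm⟩ rfl rfl
          · exact h14 a ⟨hcd.symm, hab.symm⟩ rfl rfl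
      · exfalso
        by_cases hbd' : b = d
        · subst hbd'
          rcases hfib a c hac hac' with ⟨rfl, rfl⟩ | ⟨rfl, rfl⟩
          · exact h23 b ⟨hab, hcd⟩ rfl rfl
          · exact h13 b ⟨hcd, hab⟩ rfl rfl
        · rcases hfib a c hac hac' with ⟨rfl, rfl⟩ | ⟨rfl, rfl⟩
          · rcases hfib b d hbd hbd' with ⟨rfl, rfl⟩ | ⟨rfl, rfl⟩
            · exact hab.ne rfl
            · exact h11 rfl rfl
          · rcases hfib b d hbd hbd' with ⟨rfl, rfl⟩ | ⟨rfl, rfl⟩
            · exact h12 rfl rfl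
            · exact hab.ne rfl
    · rintro ⟨a, b⟩ hab h1 h2
      simp only at hab h2
      simp only [X, Set.mem_union, Set.mem_singleton_iff, not_or, Prod.mk.injEq, not_and] at h1
      rcases hfib a b h2 hab.ne with ⟨rfl, rfl⟩ | ⟨rfl, rfl⟩
      · exact h1.1.1 rfl rfl
      · exact h1.1.2 rfl rfl

/-- contraction of a connected set `S` such that every vertex outside `S` has at most one
neighbour in `S` -/
theorem contract_set [Finite V] {G : SimpleGraph V} (hG : ConnOn G Set.univ) {S : Finset V}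
    (hS : ConnOn G (S : Set V)) (hcl : ∀ y ∉ S, #(nb G S y) ≤ 1) :
    ∃ (W : Type) (_ : Finite W) (H : SimpleGraph W) (f : V → W) (w0 : W),
      (∀ w, ConnOn G {v | f v = w}) ∧
      (∀ w w', H.Adj w w' → ∃ x y, f x = w ∧ f y = w' ∧ G.Adj x y) ∧
      (∀ v, f v = w0 ↔ v ∈ S) ∧
      Nat.card W + #S = Nat.card V + 1 ∧ ConnOn H Set.univ ∧ dc G ≤ dc H + E2 G S := by
  let f : V → Option {v : V // v ∉ S} := fun v => if h : v ∈ S then none else some ⟨v, h⟩
  have hf1 : ∀ v, v ∈ S → f v = none := fun v h => by simp [f, h]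
  have hf2 : ∀ v (h : v ∉ S), f v = some ⟨v, h⟩ := fun v h => by simp [f, h]
  have hiff : ∀ v, f v = none ↔ v ∈ S := by
    intro v
    constructor
    · intro h
      by_contra hv
      rw [hf2 v hv] at h
      exact absurd h (by simp)
    · exact hf1 v
  obtain ⟨s, hs⟩ := hS.1
  have hs' : s ∈ S := hs
  have hsurj : Function.Surjective f := by
    rintro (_ | w)
    · exact ⟨s, hf1 s hs⟩
    · exact ⟨w.1, hf2 w.1 w.2⟩
  have hfib : ∀ a b, f a = f b → a ∉ S → a = b := by
    intro a b hab ha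
    by_cases hb : b ∈ S
    · rw [hf1 b hb, hf2 a ha] at hab
      exact absurd hab (by simp)
    · rw [hf2 a ha, hf2 b hb] at hab
      exact congrArg Subtype.val (Option.some.inj hab)
  have hconn : ∀ w, ConnOn G {v | f v = w} := by
    rintro (_ | w)
    · have : {v | f v = none} = (S : Set V) := by
        ext v
        simp only [Set.mem_ofPred_eq, mem_coe]
        exact hiff v
      rw [this]; exact hS
    · have : {v | f v = some w} = {w.1} := by
        ext v
        simp only [Set.mem_ofPred_eq, Set.mem_singleton_iff]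
        constructor
        · intro h
          rw [← hf2 w.1 w.2] at h
          exact (hfib _ _ h.symm w.2).symm
        · intro h
          rw [h, hf2 _ w.2]
      rw [this]
      exact connOn_singleton G _
  refine ⟨Option {v : V // v ∉ S}, inferInstance, quo f G, f, none, hconn, fun _ _ h => h.2, hiff,
    ?_, conn_quo hG hsurj, ?_⟩
  · rw [Finite.card_option]
    have h1 : Nat.card {v : V // v ∉ S} = ((S : Set V)ᶜ).ncard := rfl
    rw [h1]
    have h2 := Set.ncard_add_ncard_compl (S : Set V)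
    rw [Set.ncard_coe_finset] at h2
    omega
  · rw [E2_eq]
    refine dc_quo_ge (f := f) (G := G) _ ?_ ?_
    · rintro ⟨a, b⟩ ⟨c, d⟩ hab hcd h1 h2 hac hbd
      simp only at hab hcd hac hbd
      simp only [Set.mem_ofPred_eq, not_and] at h1 h2
      have uniq : ∀ p q r, p ∉ S → q ∈ S → r ∈ S → G.Adj p q → G.Adj p r → q = r := by
        intro p q r hp hq hr hpq hpr
        have := hcl p hp
        rw [card_le_one] at this
        exact this q (mem_nb.2 ⟨hq, hpq⟩) r (mem_nb.2 ⟨hr, hpr⟩)
      by_cases ha : a ∈ S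
      · have hb : b ∉ S := fun hb => h1 ha hb hab
        have hbd' := hfib b d hbd hb
        subst hbd'
        have hc : c ∈ S := by
          rw [← hiff, ← hac, hiff]; exact ha
        have := uniq b a c hb ha hc hab.symm hcd.symm
        rw [this]
      · have hac' := hfib a c hac ha
        subst hac'
        by_cases hb : b ∈ S
        · have hd : d ∈ S := by
            rw [← hiff, ← hbd, hiff]; exact hb
          have := uniq a b d ha hb hd hab hcd
          rw [this]
        · rw [hfib b d hbd hb]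
    · rintro ⟨a, b⟩ hab h1 h2
      simp only at hab h2
      simp only [Set.mem_ofPred_eq, not_and] at h1
      by_cases ha : a ∈ S
      · have hb : b ∈ S := by
          rw [← hiff, ← h2, hiff]; exact ha
        exact h1 ha hb hab
      · exact hab.ne (hfib a b h2 ha)

end Pool.Agent.D0H6.CD
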