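import Pool.Agent.D0H6.CD.Darts

/-!
Small minors with many edges: gluing a minor of `G / S` with a minor of `G[S]`; spanning connected
subgraphs with a prescribed number of edges.
-/

set_option autoImplicit false

namespace Pool.Agent.D0H6.CD

open Finset Classical

variable {V W U : Type}

/-- `G` has a spanning contraction minor with at most `5k+1` vertices and at least `2v-2+k`
edges -/
def Small (k : ℕ) (G : SimpleGraph V) : Prop :=
  ∃ (W : Type) (_ : Finite W) (H : SimpleGraph W), SMinor H G ∧ Nat.card W ≤ 5 * k + 1 ∧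
    4 * Nat.card W + 2 * k ≤ dc H + 4

theorem Small.of_sminor {k : ℕ} {H : SimpleGraph W} {G : SimpleGraph V} (h : Small k H)
    (hHG : SMinor H G) : Small k G := by
  obtain ⟨W', h1, K, h2, h3⟩ := h
  exact ⟨W', h1, K, h2.trans hHG, h3⟩

theorem Small.mono {k : ℕ} {H G : SimpleGraph V} (h : Small k H) (hHG : H ≤ G) : Small k G := by
  obtain ⟨W', h1, K, h2, h3⟩ := h
  exact ⟨W', h1, K, h2.mono_right hHG, h3⟩

theorem small_of_set [Finite V] {k : ℕ} {G : SimpleGraph V} (hG : ConnOn G Set.univ)
    {S : Finset V} (hS : S.Nonempty) (h1 : #S ≤ 5 * k + 1) (h2 : 4 * #S + 2 * k ≤ E2 G S + 4) :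
    Small k G := by
  refine ⟨((S : Set V) : Type), inferInstance, G.induce (S : Set V),
    sminor_induce hG (by simpa using hS), ?_, ?_⟩
  · have : Nat.card ((S : Set V) : Type) = #S := by
      rw [Nat.card_coe_set_eq, Set.ncard_coe_finset]
    omega
  · have : Nat.card ((S : Set V) : Type) = #S := by
      rw [Nat.card_coe_set_eq, Set.ncard_coe_finset]
    rw [dc_induce]
    omega

/-- gluing -/
theorem glue [Finite V] {G : SimpleGraph V} {S : Finset V} {H : SimpleGraph W}
    {f : V → W} {w0 : W} (hf1 : ∀ w, ConnOn G {v | f v = w})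
    (hf2 : ∀ w w', H.Adj w w' → ∃ x y, f x = w ∧ f y = w' ∧ G.Adj x y)
    (hf3 : ∀ v, f v = w0 ↔ v ∈ S) {j j' : ℕ} (hH : Small j' H)
    (hS : Small j (G.induce (S : Set V))) : Small (j' + j) G := by
  obtain ⟨U, hU, K, ⟨g, hg1, hg2⟩, hK1, hK2⟩ := hH
  obtain ⟨U', hU', L, ⟨h, hh1, hh2⟩, hL1, hL2⟩ := hS
  -- the part containing the contracted vertex
  set u0 := g w0 with hu0
  let T : Set V := f ⁻¹' (g ⁻¹' {u0})
  have hT : ConnOn G T := conn_preimage hf1 hf2 (hg1 u0)
  have hTmem : ∀ v, v ∈ T ↔ g (f v) = u0 := fun v => Iff.rfl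
  have hST : (S : Set V) ⊆ T := by
    intro v hv
    rw [hTmem, (hf3 v).2 hv]
  have hSne : (S : Set V).Nonempty := by
    obtain ⟨v, hv⟩ := (hf1 w0).1
    exact ⟨v, (hf3 v).1 hv⟩
  obtain ⟨s0, hs0⟩ := hSne
  -- extension of `h` to `V`
  let h0 : V → U' := fun v => if hv : v ∈ S then h ⟨v, hv⟩ else h ⟨s0, hs0⟩
  have hh0 : ∀ v (hv : v ∈ S), h0 v = h ⟨v, hv⟩ := fun v hv => by simp [h0, hv]
  obtain ⟨h', he1, he2, he3⟩ := extend hT h0 hST ⟨s0, hs0⟩ (by
    intro v hv
    have hv' : v ∈ S := hv
    have := hh1 (h ⟨v, hv'⟩)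
    have h4 := conn_image (G := G.induce (S : Set V)) (H := G) (f := fun x => x.1)
      (S := {x | h x = h ⟨v, hv'⟩}) (fun x y _ _ hxy => Or.inr hxy) this
    have h5 : (fun x : ((S : Set V) : Type) => x.1) '' {x | h x = h ⟨v, hv'⟩} =
        {x | x ∈ (S : Set V) ∧ h0 x = h0 v} := by
      ext x
      simp only [Set.mem_image, Set.mem_ofPred_eq]
      constructor
      · rintro ⟨⟨x, hx⟩, h6, rfl⟩
        exact ⟨hx, by rw [hh0 x hx, hh0 v hv', h6]⟩
      · rintro ⟨hx, h6⟩
        rw [hh0 x hx, hh0 v hv'] at h6
        exact ⟨⟨x, hx⟩, h6, rfl⟩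
    rw [h5] at h4
    exact h4)
  have hext1 := he1
  -- the final map
  let F : V → {u : U // u ≠ u0} ⊕ U' := fun v =>
    if hv : g (f v) = u0 then Sum.inr (h' v) else Sum.inl ⟨g (f v), hv⟩
  have hF1 : ∀ v, g (f v) = u0 → F v = Sum.inr (h' v) := fun v hv => by simp [F, hv]
  have hF2 : ∀ v (hv : g (f v) ≠ u0), F v = Sum.inl ⟨g (f v), hv⟩ := fun v hv => by simp [F, hv]
  have hFconn : ∀ w, ConnOn G {v | F v = w} := by
    rintro (u | u)
    · have : {v | F v = Sum.inl u} = f ⁻¹' (g ⁻¹' {u.1}) := by
        ext v
        simp only [Set.mem_ofPred_eq, Set.mem_preimage, Set.mem_singleton_iff]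
        constructor
        · intro h1
          by_cases hv : g (f v) = u0
          · rw [hF1 v hv] at h1; exact absurd h1 (by simp)
          · rw [hF2 v hv] at h1
            exact congrArg Subtype.val (Sum.inl.inj h1)
        · intro h1
          have hv : g (f v) ≠ u0 := by rw [h1]; exact u.2
          rw [hF2 v hv]
          congr 1
          exact Subtype.ext h1
      rw [this]
      exact conn_preimage hf1 hf2 (hg1 u.1)
    · obtain ⟨⟨s, hs⟩, hsu⟩ := (hh1 u).1
      have hs' : s ∈ S := hs
      have hsT : s ∈ T := hST hs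
      have h1 : h' s = u := by
        rw [he1 s hs, hh0 s hs']; exact hsu
      have : {v | F v = Sum.inr u} = {x | x ∈ T ∧ h' x = h' s} := by
        ext v
        simp only [Set.mem_ofPred_eq]
        rw [h1]
        constructor
        · intro h2
          by_cases hv : g (f v) = u0
          · rw [hF1 v hv] at h2
            exact ⟨hv, Sum.inr.inj h2⟩
          · rw [hF2 v hv] at h2; exact absurd h2 (by simp)
        · rintro ⟨hv, h2⟩
          rw [hF1 v hv, h2]
      rw [this]
      exact he3 s hsT
  have hcard : Nat.card ({u : U // u ≠ u0} ⊕ U') + 1 = Nat.card U + Nat.card U' := by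
    rw [Nat.card_sum]
    have h1 : Nat.card {v : U // v ≠ u0} = ({u0}ᶜ : Set U).ncard := rfl
    rw [h1]
    have h2 := Set.ncard_add_ncard_compl ({u0} : Set U)
    rw [Set.ncard_singleton] at h2
    omega
  refine ⟨{u : U // u ≠ u0} ⊕ U', inferInstance, quo F G, sminor_quo hFconn, by omega, ?_⟩
  -- the edges
  have hcross : ∀ u : U, K.Adj u u0 → ∃ u' : U', ∀ hu : u ≠ u0,
      (quo F G).Adj (Sum.inl ⟨u, hu⟩) (Sum.inr u') := by
    intro u hu
    obtain ⟨w, w', hw, hw', hww⟩ := hg2 u u0 hu
    obtain ⟨x, y, hx, hy, hxy⟩ := hf2 w w' hww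
    refine ⟨h' y, fun hne => ⟨by simp, x, y, ?_, ?_, hxy⟩⟩
    · have h1 : g (f x) = u := by rw [hx, hw]
      have h2 : g (f x) ≠ u0 := by rw [h1]; exact hne
      rw [hF2 x h2]
      congr 1
      exact Subtype.ext h1
    · exact hF1 y (by rw [hy, hw'])
  have hU'ne : Nonempty U' := ⟨h ⟨s0, hs0⟩⟩
  let c : U → U' := fun u => if hu : K.Adj u u0 then (hcross u hu).choose else Classical.arbitrary U'
  have hc : ∀ u, K.Adj u u0 → ∀ hu : u ≠ u0, (quo F G).Adj (Sum.inl ⟨u, hu⟩) (Sum.inr (c u)) := by
    intro u h1
    have : c u = (hcross u h1).choose := by simp [c, h1]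
    rw [this]
    exact (hcross u h1).choose_spec
  have hdc : dc K + dc L ≤ dc (quo F G) := by
    let A : Set ((U × U) ⊕ (U' × U')) := Sum.elim (fun p => K.Adj p.1 p.2) (fun p => L.Adj p.1 p.2)
    have hA : A.ncard = dc K + dc L := by
      have h1 : A = (Sum.inl '' {p : U × U | K.Adj p.1 p.2}) ∪
          (Sum.inr '' {p : U' × U' | L.Adj p.1 p.2}) := by
        ext p
        rcases p with p | p
        · simp only [Set.mem_union, Set.mem_image, Sum.inl.injEq, exists_eq_right, reduceCtorEq,
            and_false, exists_false, or_false]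
          exact Iff.rfl
        · simp only [Set.mem_union, Set.mem_image, Sum.inr.injEq, exists_eq_right, reduceCtorEq,
            and_false, exists_false, false_or]
          exact Iff.rfl
      rw [h1, Set.ncard_union_eq, Set.ncard_image_of_injective _ Sum.inl_injective,
        Set.ncard_image_of_injective _ Sum.inr_injective]
      · rfl
      · rw [Set.disjoint_left]
        rintro _ ⟨p, _, rfl⟩ ⟨q, _, hq⟩
        exact absurd hq (by simp)
    rw [← hA]
    let e : U → U → {u : U // u ≠ u0} ⊕ U' := fun u v =>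
      if hu : u = u0 then Sum.inr (c v) else Sum.inl ⟨u, hu⟩
    have he1 : ∀ v, e u0 v = Sum.inr (c v) := fun v => by simp [e]
    have he2 : ∀ u v (hu : u ≠ u0), e u v = Sum.inl ⟨u, hu⟩ := fun u v hu => by simp [e, hu]
    refine Set.ncard_le_ncard_of_injOn
      (Sum.elim (fun p : U × U => (e p.1 p.2, e p.2 p.1))
        (fun p : U' × U' => (Sum.inr p.1, Sum.inr p.2))) ?_ ?_ (Set.toFinite _)
    · rintro (⟨u, v⟩ | ⟨u, v⟩) hp
      · have hp' : K.Adj u v := hp
        change (quo F G).Adj (e u v) (e v u)
        by_cases hu : u = u0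
        · subst hu
          have hv : v ≠ g w0 := fun h => by rw [h] at hp'; exact hp'.ne rfl
          rw [he1, he2 v _ hv]
          exact (hc v hp'.symm hv).symm
        · by_cases hv : v = u0
          · subst hv
            rw [he1, he2 u _ hu]
            exact hc u hp' hu
          · rw [he2 u _ hu, he2 v _ hv]
            obtain ⟨w, w', hw, hw', hww⟩ := hg2 u v hp'
            obtain ⟨x, y, hx, hy, hxy⟩ := hf2 w w' hww
            refine ⟨?_, x, y, ?_, ?_, hxy⟩
            · intro h
              exact hp'.ne (congrArg Subtype.val (Sum.inl.inj h))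
            · have h1 : g (f x) = u := by rw [hx, hw]
              rw [hF2 x (by rw [h1]; exact hu)]
              congr 1
              exact Subtype.ext h1
            · have h1 : g (f y) = v := by rw [hy, hw']
              rw [hF2 y (by rw [h1]; exact hv)]
              congr 1
              exact Subtype.ext h1
      · have hp' : L.Adj u v := hp
        change (quo F G).Adj (Sum.inr u) (Sum.inr v)
        obtain ⟨⟨x, hx⟩, ⟨y, hy⟩, hxu, hyv, hxy⟩ := hh2 u v hp'
        have hx' : x ∈ S := hx
        have hy' : y ∈ S := hy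
        refine ⟨fun h => hp'.ne (Sum.inr.inj h), x, y, ?_, ?_, hxy⟩
        · rw [hF1 x (hST hx), hext1 x hx, hh0 x hx']
          exact congrArg _ hxu
        · rw [hF1 y (hST hy), hext1 y hy, hh0 y hy']
          exact congrArg _ hyv
    · rintro (⟨u, v⟩ | ⟨u, v⟩) hp (⟨u', v'⟩ | ⟨u', v'⟩) hq hpq
      · have hp' : K.Adj u v := hp
        have hq' : K.Adj u' v' := hq
        simp only [Sum.elim_inl, Prod.mk.injEq] at hpq
        obtain ⟨h1, h2⟩ := hpq
        by_cases hu : u = u0
        · subst hu
          by_cases hu' : u' = g w0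
          · subst hu'
            have hv : v ≠ g w0 := fun h => by rw [h] at hp'; exact hp'.ne rfl
            have hv' : v' ≠ g w0 := fun h => by rw [h] at hq'; exact hq'.ne rfl
            rw [he2 v _ hv, he2 v' _ hv'] at h2
            have := congrArg Subtype.val (Sum.inl.inj h2)
            simp only at this
            rw [this]
          · rw [he1, he2 u' _ hu'] at h1
            exact absurd h1 (by simp)
        · by_cases hu' : u' = u0
          · subst hu'
            rw [he1, he2 u _ hu] at h1
            exact absurd h1 (by simp)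
          · rw [he2 u _ hu, he2 u' _ hu'] at h1
            have huu := congrArg Subtype.val (Sum.inl.inj h1)
            simp only at huu
            subst huu
            by_cases hv : v = u0
            · by_cases hv' : v' = u0
              · rw [hv, hv']
              · rw [hv, he1, he2 v' _ hv'] at h2
                exact absurd h2 (by simp)
            · by_cases hv' : v' = u0
              · rw [hv', he1, he2 v _ hv] at h2
                exact absurd h2 (by simp)
              · rw [he2 v _ hv, he2 v' _ hv'] at h2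
                have := congrArg Subtype.val (Sum.inl.inj h2)
                simp only at this
                rw [this]
      · exfalso
        have hp' : K.Adj u v := hp
        simp only [Sum.elim_inl, Sum.elim_inr, Prod.mk.injEq] at hpq
        obtain ⟨h1, h2⟩ := hpq
        by_cases hu : u = u0
        · subst hu
          have hv : v ≠ g w0 := fun h => by rw [h] at hp'; exact hp'.ne rfl
          rw [he2 v _ hv] at h2
          exact absurd h2 (by simp)
        · rw [he2 u _ hu] at h1
          exact absurd h1 (by simp)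
      · exfalso
        have hq' : K.Adj u' v' := hq
        simp only [Sum.elim_inl, Sum.elim_inr, Prod.mk.injEq] at hpq
        obtain ⟨h1, h2⟩ := hpq
        by_cases hu : u' = u0
        · subst hu
          have hv : v' ≠ g w0 := fun h => by rw [h] at hq'; exact hq'.ne rfl
          rw [he2 v' _ hv] at h2
          exact absurd h2 (by simp)
        · rw [he2 u' _ hu] at h1
          exact absurd h1 (by simp)
      · simp only [Sum.elim_inr, Prod.mk.injEq, Sum.inr.injEq] at hpq
        rw [hpq.1, hpq.2]
  omega

end Pool.Agent.D0H6.CD
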