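import Pool.Agent.D0H6.CD.Glue

/-!
Main theorem: a connected graph with `e ≥ 2v - 2 + k` (`k = 1, 2, 3`) has a connected contraction
with at most `5k + 1` vertices and `e ≥ 2v - 2 + k`.
-/

set_option autoImplicit false

namespace Pool.Agent.D0H6.CD

open Finset Classical

variable {V W U : Type}

theorem exists_exact [Finite V] {G : SimpleGraph V} (hG : ConnOn G Set.univ) {m : ℕ}
    (h1 : Nat.card V ≤ m + 1) (h2 : 2 * m ≤ dc G) :
    ∃ G' : SimpleGraph V, G' ≤ G ∧ ConnOn G' Set.univ ∧ dc G' = 2 * m := by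
  have := Fintype.ofFinite V
  have hc : G.Connected := by
    have h3 := (connOn_iff G Set.univ).1 hG
    exact (SimpleGraph.Iso.connected_iff (SimpleGraph.induceUnivIso G)).1 h3
  obtain ⟨T, hT, hT2⟩ := hc.exists_isTree_le
  have hTcard := hT2.card_edgeFinset
  have hsub : T.edgeFinset ⊆ G.edgeFinset := SimpleGraph.edgeFinset_mono hT
  have hGe : m ≤ #G.edgeFinset := by
    rw [dc_eq_two_mul, ← SimpleGraph.coe_edgeFinset, Set.ncard_coe_finset] at h2
    omega
  rw [Nat.card_eq_fintype_card] at h1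
  obtain ⟨F, hF1, hF2, hF3⟩ := Finset.exists_subsuperset_card_eq hsub (n := m) (by omega) hGe
  have hdiag : ((F : Set (Sym2 V)) \ {e | e.IsDiag}) = F := by
    ext e
    simp only [Set.mem_sdiff, Set.mem_ofPred_eq, mem_coe, and_iff_left_iff_imp]
    intro he
    have := hF2 he
    rw [SimpleGraph.mem_edgeFinset] at this
    exact G.not_isDiag_of_mem_edgeSet this
  refine ⟨SimpleGraph.fromEdgeSet (F : Set (Sym2 V)), ?_, ?_, ?_⟩
  · intro x y hxy
    rw [SimpleGraph.fromEdgeSet_adj] at hxy
    have := hF2 (mem_coe.1 hxy.1)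
    rwa [SimpleGraph.mem_edgeFinset, SimpleGraph.mem_edgeSet] at this
  · have hle : T ≤ SimpleGraph.fromEdgeSet (F : Set (Sym2 V)) := by
      intro x y hxy
      rw [SimpleGraph.fromEdgeSet_adj]
      refine ⟨mem_coe.2 (hF1 ?_), hxy.ne⟩
      rwa [SimpleGraph.mem_edgeFinset, SimpleGraph.mem_edgeSet]
    have h3 := hT2.1.mono hle
    rw [connOn_iff]
    exact (SimpleGraph.Iso.connected_iff (SimpleGraph.induceUnivIso _)).2 h3
  · rw [dc_eq_two_mul, SimpleGraph.edgeSet_fromEdgeSet]
    have : ((F : Set (Sym2 V)) \ Sym2.diagSet).ncard = m := by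
      have h4 : ((F : Set (Sym2 V)) \ Sym2.diagSet) = F := by
        rw [← hdiag]
        ext e
        simp
      rw [h4, Set.ncard_coe_finset, hF3]
    rw [this]

theorem closed_small [Finite V] {G : SimpleGraph V} {n k : ℕ}
    (IH : ∀ (V' : Type) [Finite V'] (G' : SimpleGraph V') (k' : ℕ), 1 ≤ k' → k' ≤ 3 →
      Nat.card V' < n → ConnOn G' Set.univ → 4 * Nat.card V' + 2 * k' ≤ dc G' + 4 → Small k' G')
    (hk1 : 1 ≤ k) (hk3 : k ≤ 3) (hn : Nat.card V = n) (hG : ConnOn G Set.univ)
    (hdc : 4 * n + 2 * k ≤ dc G + 4) {S : Finset V} (hS : ConnOn G (S : Set V)) (h2 : 2 ≤ #S)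
    (hSn : #S < n) (hE : 4 * #S ≤ E2 G S + 6) (hcl : ∀ y ∉ S, #(nb G S y) ≤ 1) : Small k G := by
  obtain ⟨W, _, H, f, w0, hf1, hf2, hf3, hcard, hH, hdcH⟩ := contract_set hG hS hcl
  have hsm : SMinor H G := ⟨f, hf1, hf2⟩
  have hcS : Nat.card ((S : Set V) : Type) = #S := by
    rw [Nat.card_coe_set_eq, Set.ncard_coe_finset]
  -- parity
  have hpar : E2 G S = 2 * (G.induce (S : Set V)).edgeSet.ncard := by
    rw [← dc_induce, dc_eq_two_mul]
  have hSc := connOn_induce_univ hS
  by_cases hj : E2 G S + 4 ≤ 4 * #S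
  · exact (IH W H k hk1 hk3 (by omega) hH (by omega)).of_sminor hsm
  · by_cases hjk : 4 * #S + 2 * k ≤ E2 G S + 4
    · refine (IH _ (G.induce (S : Set V)) k hk1 hk3 (by omega) hSc ?_).of_sminor
        (sminor_induce hG hS.1)
      rw [dc_induce]; omega
    · obtain ⟨j, hj1⟩ : ∃ j, E2 G S + 4 = 4 * #S + 2 * j :=
        ⟨(G.induce (S : Set V)).edgeSet.ncard + 2 - 2 * #S, by omega⟩
      have h3 : Small (k - j) H := IH W H (k - j) (by omega) (by omega) (by omega) hH (by omega)
      have h4 : Small j (G.induce (S : Set V)) :=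
        IH _ (G.induce (S : Set V)) j (by omega) (by omega) (by omega) hSc
          (by rw [dc_induce]; omega)
      have h5 := glue hf1 hf2 hf3 h3 h4
      have h6 : k - j + j = k := by omega
      rwa [h6] at h5

theorem D2_insert' {G : SimpleGraph V} {S : Finset V} {y : V} (hy : y ∉ S) :
    2 * ∑ p ∈ nb G S y, (2 - #(nb G (nb G S y) p)) ≤ D2 G (insert y S) := by
  set B := nb G S y with hB
  have hD : D2 G (insert y S) = ∑ q ∈ B, (2 - #(nb G B q)) +
      ∑ p ∈ S, ∑ q ∈ nb G (insert y S) p, (2 - tri G (insert y S) p q) := by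
    unfold D2
    rw [sum_insert hy, nb_insert_self]
    congr 1
    refine sum_congr rfl (fun q _ => ?_)
    rw [tri_insert_self]
  have hpt : ∑ p ∈ B, (2 - #(nb G B p)) ≤
      ∑ p ∈ B, ∑ q ∈ nb G (insert y S) p, (2 - tri G (insert y S) p q) := by
    refine sum_le_sum (fun p hp => ?_)
    rw [hB, mem_nb] at hp
    have h1 : y ∈ nb G (insert y S) p := by
      rw [mem_nb]; exact ⟨mem_insert_self _ _, hp.2.symm⟩
    have h2 := single_le_sum (f := fun q => 2 - tri G (insert y S) p q) (fun _ _ => Nat.zero_le _) h1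
    refine le_trans ?_ h2
    rw [tri_comm, tri_insert_self]
  have hsub : ∑ p ∈ B, ∑ q ∈ nb G (insert y S) p, (2 - tri G (insert y S) p q) ≤
      ∑ p ∈ S, ∑ q ∈ nb G (insert y S) p, (2 - tri G (insert y S) p q) :=
    sum_le_sum_of_subset (by intro p hp; rw [hB, mem_nb] at hp; exact hp.1)
  rw [hD]
  omega

/-- the data of a hypothetical minimal counterexample -/
structure Bad (G : SimpleGraph V) [Fintype V] (k : ℕ) : Prop where
  conn : ConnOn G Set.univ
  hdc : dc G + 4 = 4 * Fintype.card V + 2 * k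
  hn : 5 * k + 1 < Fintype.card V
  small : ∀ S : Finset V, S.Nonempty → #S ≤ 5 * k + 1 → E2 G S + 4 < 4 * #S + 2 * k
  big : ∀ S : Finset V, ConnOn G (S : Set V) → S ≠ univ → E2 G S + 4 < 4 * #S + 2 * k
  closed : ∀ S : Finset V, ConnOn G (S : Set V) → 2 ≤ #S → S ≠ univ → 4 * #S ≤ E2 G S + 6 →
    ∃ y ∉ S, 2 ≤ #(nb G S y)
  tri : ∀ x y, G.Adj x y → 2 ≤ tri G univ x y

theorem conn_insert_of_nb {G : SimpleGraph V} {S : Finset V} {y : V} (hS : ConnOn G (S : Set V))
    (hy : 1 ≤ #(nb G S y)) : ConnOn G ((insert y S : Finset V) : Set V) := by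
  obtain ⟨p, hp⟩ := card_pos.1 (show 0 < #(nb G S y) by omega)
  rw [mem_nb] at hp
  rw [coe_insert]
  exact connOn_insert hS (mem_coe.2 hp.1) hp.2.symm

/-- growth of a set with an invariant -/
theorem Bad.grow [Fintype V] {G : SimpleGraph V} {k : ℕ} (h : Bad G k) (P : Finset V → Prop)
    (hstep : ∀ S y, y ∉ S → 2 ≤ #(nb G S y) → ConnOn G (S : Set V) → 2 ≤ #S →
      4 * #S ≤ E2 G S + 6 → (E2 G (insert y S) + 4 ≤ 4 * #(insert y S) + 2 * k) → P S →
      P (insert y S))
    {S : Finset V} (hS : ConnOn G (S : Set V)) (h2 : 2 ≤ #S) (hE : 4 * #S ≤ E2 G S + 6)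
    (hP : P S) : P univ := by
  obtain ⟨m, hm⟩ : ∃ m, #S + m = Fintype.card V := ⟨Fintype.card V - #S, by
    have := card_le_univ S; omega⟩
  induction m generalizing S with
  | zero =>
    have : S = univ := by
      rw [← card_eq_iff_eq_univ]; omega
    rwa [this] at hP
  | succ m ih =>
    have hne : S ≠ univ := by
      intro h1; rw [h1, card_univ] at hm; omega
    obtain ⟨y, hy, hb⟩ := h.closed S hS h2 hne hE
    have hc := conn_insert_of_nb hS (by omega : 1 ≤ #(nb G S y))
    have hcard : #(insert y S) = #S + 1 := card_insert_of_notMem hy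
    refine ih hc (by omega) ?_ ?_ (by omega)
    · rw [E2_insert hy, hcard]; omega
    · refine hstep S y hy hb hS h2 hE ?_ hP
      by_cases hu : insert y S = univ
      · rw [hu, E2_univ, card_univ, h.hdc]
      · exact (h.big _ hc hu).le

theorem D2_univ_eq_zero [Fintype V] {G : SimpleGraph V}
    (h : ∀ x y, G.Adj x y → 2 ≤ tri G univ x y) : D2 G univ = 0 := by
  unfold D2
  refine sum_eq_zero (fun p _ => sum_eq_zero (fun q hq => ?_))
  rw [mem_nb] at hq
  have := h p q hq.2
  omega

theorem Bad.pot [Fintype V] {G : SimpleGraph V} {k : ℕ} (h : Bad G k) (hk : k ≤ 3) {c : ℕ}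
    {S : Finset V} (hS : ConnOn G (S : Set V)) (h2 : 2 ≤ #S) (hE : 4 * #S ≤ E2 G S + 6)
    (hP : 18 * #S + c ≤ D2 G S + 4 * E2 G S + 24) : 2 * Fintype.card V + c ≤ 8 * k + 8 := by
  have h1 := h.grow (fun S => 18 * #S + c ≤ D2 G S + 4 * E2 G S + 24) ?_ hS h2 hE hP
  · rw [D2_univ_eq_zero h.tri, E2_univ, card_univ] at h1
    have := h.hdc
    omega
  · intro S y hy hb _ _ hE' hup hPS
    refine pot_step hy hb ?_ hPS
    rw [E2_insert hy, card_insert_of_notMem hy] at hup
    omega

theorem pair_facts {G : SimpleGraph V} {x y : V} (hxy : G.Adj x y) :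
    ConnOn G (({x, y} : Finset V) : Set V) ∧ #({x, y} : Finset V) = 2 ∧ E2 G {x, y} = 2 ∧
      4 ≤ D2 G {x, y} := by
  have hne := hxy.ne
  have hx : x ∉ ({y} : Finset V) := by simpa using hne
  have hnb : nb G {y} x = {y} := by
    ext z; rw [mem_nb, mem_singleton]
    constructor
    · exact fun h => h.1
    · rintro rfl; exact ⟨rfl, hxy⟩
  have hnby : nb G {y} y = ∅ := by
    ext z; rw [mem_nb, mem_singleton]
    constructor
    · rintro ⟨rfl, h⟩; exact absurd h (G.loopless.irrefl _)
    · intro h; exact absurd h (notMem_empty _)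
  have hE0 : E2 G {y} = 0 := by
    unfold E2; rw [sum_singleton, hnby, card_empty]
  refine ⟨?_, card_pair hne, ?_, ?_⟩
  · refine conn_insert_of_nb (S := {y}) ?_ (by rw [hnb, card_singleton])
    rw [coe_singleton]; exact connOn_singleton G y
  · rw [E2_insert hx, hE0, hnb, card_singleton]
  · have := D2_insert' (G := G) hx
    rw [hnb, sum_singleton, hnby, card_empty] at this
    exact this

theorem Bad.exists_adj [Fintype V] {G : SimpleGraph V} {k : ℕ} (h : Bad G k) :
    ∃ x y, G.Adj x y := by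
  by_contra hcon
  push Not at hcon
  have : dc G = 0 := by
    unfold dc
    have : {p : V × V | G.Adj p.1 p.2} = ∅ := by
      ext p; simp [hcon]
    rw [this, Set.ncard_empty]
  have h1 := h.hdc
  have h2 := h.hn
  omega

theorem bad3 [Fintype V] {G : SimpleGraph V} (h : Bad G 3) : False := by
  obtain ⟨x, y, hxy⟩ := h.exists_adj
  obtain ⟨h1, h2, h3, h4⟩ := pair_facts hxy
  have h5 := h.pot (by omega) (c := 0) h1 (by omega) (by omega) (by omega)
  have := h.hn
  omega

/-- a set spanning a complete graph -/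
theorem clique_insert {G : SimpleGraph V} {S : Finset V} {y : V} (hS : S.Nonempty)
    (hy : ∀ p ∈ S, G.Adj y p) (hc : ConnOn G (S : Set V)) :
    y ∉ S ∧ nb G S y = S ∧ ConnOn G ((insert y S : Finset V) : Set V) ∧
      #(insert y S) = #S + 1 ∧ E2 G (insert y S) = E2 G S + 2 * #S := by
  have h1 : y ∉ S := fun h => (hy y h).ne rfl
  have h2 : nb G S y = S := by
    ext p; rw [mem_nb]; exact ⟨fun h => h.1, fun h => ⟨h, hy p h⟩⟩
  refine ⟨h1, h2, conn_insert_of_nb hc ?_, card_insert_of_notMem h1, ?_⟩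
  · rw [h2]; exact card_pos.2 hS
  · rw [E2_insert h1, h2]

theorem k4_facts {G : SimpleGraph V} {x a b c : V} (hxa : G.Adj x a) (hxb : G.Adj x b)
    (hxc : G.Adj x c) (hab : G.Adj a b) (hac : G.Adj a c) (hbc : G.Adj b c) :
    ConnOn G (({x, a, b, c} : Finset V) : Set V) ∧ #({x, a, b, c} : Finset V) = 4 ∧
      E2 G {x, a, b, c} = 12 := by
  obtain ⟨h1, h2, h3, -⟩ := pair_facts hbc
  obtain ⟨-, -, h4, h5, h6⟩ := clique_insert (y := a) (S := {b, c}) ⟨b, by simp⟩
    (by intro p hp; rw [mem_insert, mem_singleton] at hp; rcases hp with rfl | rfl <;> assumption) h1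
  obtain ⟨-, -, h7, h8, h9⟩ := clique_insert (y := x) (S := {a, b, c}) ⟨b, by simp⟩
    (by
      intro p hp
      rw [mem_insert, mem_insert, mem_singleton] at hp
      rcases hp with rfl | rfl | rfl <;> assumption) h4
  exact ⟨h7, by omega, by omega⟩

/-- A vertex outside a complete graph on four vertices with at least two neighbours
in it gives a potential surplus of two. -/
theorem k4_pot {G : SimpleGraph V} {Q : Finset V}
    (hQ : #Q = 4) (hE : E2 G Q = 12) {u : V} (hu : u ∉ Q) (h2 : 2 ≤ #(nb G Q u)) :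
    18 * #(insert u Q) + 2 ≤ D2 G (insert u Q) + 4 * E2 G (insert u Q) + 24 := by
  have h4 : #(nb G Q u) ≤ 4 := by
    rw [← hQ]; exact card_le_card (by intro p hp; rw [mem_nb] at hp; exact hp.1)
  rw [E2_insert hu, card_insert_of_notMem hu]
  have hD := D2_insert' (G := G) hu
  by_cases hb : #(nb G Q u) = 2
  · have h5 : ∀ p ∈ nb G Q u, 1 ≤ 2 - #(nb G (nb G Q u) p) := by
      intro p hp
      have : nb G (nb G Q u) p ⊆ (nb G Q u).erase p := by
        intro q hq
        rw [mem_nb] at hq
        rw [mem_erase]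
        refine ⟨?_, hq.1⟩
        rintro rfl
        exact G.loopless.irrefl _ hq.2
      have h := card_le_card this
      rw [card_erase_of_mem hp] at h
      omega
    have h6 := card_nsmul_le_sum _ _ 1 h5
    rw [smul_eq_mul] at h6
    omega
  · omega

theorem bad2 [Fintype V] {G : SimpleGraph V} (h : Bad G 2) : False := by
  by_cases hK : ∃ x a b c, G.Adj x a ∧ G.Adj x b ∧ G.Adj x c ∧ G.Adj a b ∧ G.Adj a c ∧ G.Adj b c
  · obtain ⟨x, a, b, c, hxa, hxb, hxc, hab, hac, hbc⟩ := hK
    obtain ⟨h1, h2, h3⟩ := k4_facts hxa hxb hxc hab hac hbc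
    have hn := h.hn
    have hne : ({x, a, b, c} : Finset V) ≠ univ := by
      intro h4; rw [h4, card_univ] at h2; omega
    obtain ⟨u, hu, hu2⟩ := h.closed _ h1 (by omega) hne (by omega)
    have h5 := k4_pot h2 h3 hu hu2
    have h6 := conn_insert_of_nb h1 (by omega : 1 ≤ #(nb G _ u))
    have h7 : #(insert u {x, a, b, c} : Finset V) = 5 := by
      rw [card_insert_of_notMem hu, h2]
    have h8 := h.pot (by omega) h6 (by omega) (by rw [E2_insert hu]; omega) h5
    omega
  · obtain ⟨x, y, hxy⟩ := h.exists_adj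
    obtain ⟨h1, h2, h3, h4⟩ := pair_facts hxy
    have hn := h.hn
    have h5 := h.grow (fun S => 18 * #S ≤ D2 G S + 4 * E2 G S + 24 ∧
      (4 * #S ≤ E2 G S + 4 → 18 * #S + 2 ≤ D2 G S + 4 * E2 G S + 24)) ?_ h1 (by omega) (by omega)
      ⟨by omega, by omega⟩
    · obtain ⟨-, h6⟩ := h5
      rw [D2_univ_eq_zero h.tri, E2_univ, card_univ] at h6
      have := h.hdc
      omega
    · rintro S z hz hb _ _ hE' hup ⟨hP1, hP2⟩
      have hb6 : #(nb G S z) ≤ 5 := by
        rw [E2_insert hz, card_insert_of_notMem hz] at hup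
        omega
      refine ⟨pot_step hz (c := 0) hb (by omega) hP1, ?_⟩
      intro hE
      by_cases hb2 : #(nb G S z) = 2
      · refine pot_step hz hb (by omega) (hP2 ?_)
        rw [E2_insert hz, card_insert_of_notMem hz] at hE
        omega
      · refine pot_step' hz (by omega) hb6 ?_ hP1
        intro h3b
        by_contra hcon
        push Not at hcon
        obtain ⟨p, q, r, hpq, hpr, hqr, hpqr⟩ := card_eq_three.1 h3b
        have hp : p ∈ nb G S z := by rw [hpqr]; simp
        have hq : q ∈ nb G S z := by rw [hpqr]; simp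
        have hr : r ∈ nb G S z := by rw [hpqr]; simp
        exact hK ⟨z, p, q, r, (mem_nb.1 hp).2, (mem_nb.1 hq).2, (mem_nb.1 hr).2,
          hcon p hp q hq hpq, hcon p hp r hr hpr, hcon q hq r hr hqr⟩

theorem Bad.exists_nb [Fintype V] {G : SimpleGraph V} {k : ℕ} (h : Bad G k) (x : V) :
    ∃ y, G.Adj x y := by
  have hn := h.hn
  obtain ⟨y, hy⟩ : ∃ y, y ≠ x := by
    have : Nontrivial V := Fintype.one_lt_card_iff_nontrivial.1 (by omega)
    exact exists_ne x
  obtain ⟨a, b, hab, -, -, ha, hb⟩ := exists_border (S := {x})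
    (h.conn.2 x (Set.mem_univ _) y (Set.mem_univ _)) rfl hy
  rw [Set.mem_singleton_iff] at ha
  subst ha
  exact ⟨b, hab⟩

theorem bad1 [Fintype V] {G : SimpleGraph V} (h : Bad G 1) : False := by
  have hn := h.hn
  have hdc := h.hdc
  -- a vertex of degree at most three
  obtain ⟨x, hx⟩ : ∃ x, #(nb G univ x) ≤ 3 := by
    by_contra hcon
    push Not at hcon
    have h1 : dc G = ∑ x : V, #(nb G univ x) := by rw [← E2_univ]; rfl
    have h2 := card_nsmul_le_sum (univ : Finset V) (fun x => #(nb G univ x)) 4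
      (fun x _ => hcon x)
    rw [smul_eq_mul, card_univ] at h2
    omega
  have hclos : ∀ p, G.Adj x p → 3 ≤ #(nb G univ x) ∧ ∀ q, G.Adj x q → q ≠ p → G.Adj p q := by
    intro p hp
    have h1 := h.tri x p hp
    unfold tri at h1
    have h2 : (univ.filter fun r => G.Adj x r ∧ G.Adj p r) ⊆ (nb G univ x).erase p := by
      intro r hr
      rw [mem_filter] at hr
      rw [mem_erase, mem_nb]
      refine ⟨?_, mem_univ _, hr.2.1⟩
      rintro rfl; exact G.loopless.irrefl _ hr.2.2
    have hpm : p ∈ nb G univ x := by rw [mem_nb]; exact ⟨mem_univ _, hp⟩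
    have h3 := card_le_card h2
    rw [card_erase_of_mem hpm] at h3
    refine ⟨by omega, fun q hq hqp => ?_⟩
    have h4 := eq_of_subset_of_card_le h2 (by rw [card_erase_of_mem hpm]; omega)
    have h5 : q ∈ (nb G univ x).erase p := by
      rw [mem_erase, mem_nb]; exact ⟨hqp, mem_univ _, hq⟩
    rw [← h4, mem_filter] at h5
    exact h5.2.2
  obtain ⟨y0, hy0⟩ := h.exists_nb x
  obtain ⟨a, b, c, hab', hac', hbc', habc⟩ := card_eq_three.1
    (le_antisymm hx (hclos y0 hy0).1)
  have hxa : G.Adj x a := by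
    have : a ∈ nb G univ x := by rw [habc]; simp
    exact (mem_nb.1 this).2
  have hxb : G.Adj x b := by
    have : b ∈ nb G univ x := by rw [habc]; simp
    exact (mem_nb.1 this).2
  have hxc : G.Adj x c := by
    have : c ∈ nb G univ x := by rw [habc]; simp
    exact (mem_nb.1 this).2
  have hab := (hclos a hxa).2 b hxb hab'.symm
  have hac := (hclos a hxa).2 c hxc hac'.symm
  have hbc := (hclos b hxb).2 c hxc hbc'.symm
  obtain ⟨h1, h2, h3⟩ := k4_facts hxa hxb hxc hab hac hbc
  set Q : Finset V := {x, a, b, c} with hQ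
  have hne : Q ≠ univ := by
    intro h4; rw [h4, card_univ] at h2; omega
  obtain ⟨u, hu, hu2⟩ := h.closed _ h1 (by omega) hne (by omega)
  have h5 := k4_pot h2 h3 hu hu2
  have h6 := conn_insert_of_nb h1 (by omega : 1 ≤ #(nb G _ u))
  have h7 : #(insert u Q : Finset V) = 5 := by
    rw [card_insert_of_notMem hu, h2]
  have hE7 : E2 G (insert u Q) = 12 + 2 * #(nb G Q u) := by rw [E2_insert hu, h3]
  have h8 := h.pot (by omega) h6 (by omega) (by omega) h5
  have hV : Fintype.card V = 7 := by omega
  -- `u` has exactly two neighbours in `Q`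
  have hu3 : #(nb G Q u) = 2 := by
    have := h.small (insert u Q) ⟨u, mem_insert_self _ _⟩ (by omega)
    omega
  obtain ⟨p, q, hpq, hnbu⟩ := card_eq_two.1 hu3
  have hp : p ∈ Q ∧ G.Adj u p := by
    have : p ∈ nb G Q u := by rw [hnbu]; simp
    exact mem_nb.1 this
  have hq : q ∈ Q ∧ G.Adj u q := by
    have : q ∈ nb G Q u := by rw [hnbu]; simp
    exact mem_nb.1 this
  -- vertices outside
  have hout : ∀ z, z ∉ insert u Q → #(nb G (insert u Q) z) ≤ 2 := by
    intro z hz
    have h9 := h.small (insert z (insert u Q)) ⟨z, mem_insert_self _ _⟩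
      (by rw [card_insert_of_notMem hz]; omega)
    rw [E2_insert hz, card_insert_of_notMem hz] at h9
    omega
  -- each of the edges `up` and `uq` has a common neighbour outside
  have hfind : ∀ p' q', p' ∈ Q → G.Adj u p' → nb G Q u ⊆ {p', q'} →
      ∃ z, z ∉ insert u Q ∧ G.Adj u z ∧ G.Adj p' z := by
    intro p' q' hp' hup' hsub
    have h9 := h.tri u p' hup'
    by_contra hcon
    push Not at hcon
    have h10 : (univ.filter fun r => G.Adj u r ∧ G.Adj p' r) ⊆ {q'} := by
      intro r hr
      rw [mem_filter] at hr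
      rw [mem_singleton]
      by_cases hrS : r ∈ insert u Q
      · rw [mem_insert] at hrS
        rcases hrS with rfl | hrQ
        · exact absurd hr.2.1 (G.loopless.irrefl _)
        · have := hsub (mem_nb.2 ⟨hrQ, hr.2.1⟩)
          rw [mem_insert, mem_singleton] at this
          rcases this with rfl | h11
          · exact absurd hr.2.2 (G.loopless.irrefl _)
          · exact h11
      · exact absurd hr.2.2 (hcon r hrS hr.2.1)
    have h11 := card_le_card h10
    rw [card_singleton] at h11
    unfold tri at h9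
    omega
  obtain ⟨z, hz, huz, hpz⟩ := hfind p q hp.1 hp.2 (by rw [hnbu])
  obtain ⟨z', hz', huz', hqz'⟩ := hfind q p hq.1 hq.2 (by rw [hnbu, pair_comm])
  -- neighbourhoods
  have hnz : nb G (insert u Q) z = {u, p} := by
    symm
    refine eq_of_subset_of_card_le ?_ ?_
    · intro r hr
      rw [mem_insert, mem_singleton] at hr
      rw [mem_nb]
      rcases hr with rfl | rfl
      · exact ⟨mem_insert_self _ _, huz.symm⟩
      · exact ⟨mem_insert_of_mem hp.1, hpz.symm⟩
    · rw [card_pair hp.2.ne]; exact hout z hz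
  have hnz' : nb G (insert u Q) z' = {u, q} := by
    symm
    refine eq_of_subset_of_card_le ?_ ?_
    · intro r hr
      rw [mem_insert, mem_singleton] at hr
      rw [mem_nb]
      rcases hr with rfl | rfl
      · exact ⟨mem_insert_self _ _, huz'.symm⟩
      · exact ⟨mem_insert_of_mem hq.1, hqz'.symm⟩
    · rw [card_pair hq.2.ne]; exact hout z' hz'
  have hup : u ≠ p := hp.2.ne
  have huq : u ≠ q := hq.2.ne
  have hzz' : z ≠ z' := by
    rintro rfl
    rw [hnz] at hnz'
    have : p ∈ ({u, q} : Finset V) := by rw [← hnz']; simp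
    rw [mem_insert, mem_singleton] at this
    rcases this with h9 | h9
    · exact hup h9.symm
    · exact hpq h9
  have huniv : insert z' (insert z (insert u Q)) = univ := by
    rw [← card_eq_iff_eq_univ, card_insert_of_notMem, card_insert_of_notMem hz, h7, hV]
    rw [mem_insert]
    rintro (h9 | h9)
    · exact hzz' h9.symm
    · exact hz' h9
  -- the edge `zp`
  have h9 := h.tri z p hpz.symm
  have h10 : (univ.filter fun r => G.Adj z r ∧ G.Adj p r) ⊆ {u} := by
    intro r hr
    rw [mem_filter] at hr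
    rw [mem_singleton]
    have hr' : r ∈ insert z' (insert z (insert u Q)) := by rw [huniv]; exact mem_univ _
    rw [mem_insert, mem_insert] at hr'
    rcases hr' with rfl | rfl | hr'
    · exfalso
      have : p ∈ nb G (insert u Q) r := mem_nb.2 ⟨mem_insert_of_mem hp.1, hr.2.2.symm⟩
      rw [hnz', mem_insert, mem_singleton] at this
      rcases this with h11 | h11
      · exact hup h11.symm
      · exact hpq h11
    · exact absurd hr.2.1 (G.loopless.irrefl _)
    · have : r ∈ nb G (insert u Q) z := mem_nb.2 ⟨hr', hr.2.1⟩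
      rw [hnz, mem_insert, mem_singleton] at this
      rcases this with h11 | h11
      · exact h11
      · subst h11; exact absurd hr.2.2 (G.loopless.irrefl _)
  have h11 := card_le_card h10
  rw [card_singleton] at h11
  unfold tri at h9
  omega

/-- **Main theorem.** -/
theorem main_aux : ∀ n : ℕ, ∀ (V : Type) [Finite V] (G : SimpleGraph V) (k : ℕ), 1 ≤ k → k ≤ 3 →
    Nat.card V = n → ConnOn G Set.univ → 4 * n + 2 * k ≤ dc G + 4 → Small k G := by
  intro n
  induction n using Nat.strong_induction_on with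
  | _ n IH =>
    have IH' : ∀ (V' : Type) [Finite V'] (G' : SimpleGraph V') (k' : ℕ), 1 ≤ k' → k' ≤ 3 →
        Nat.card V' < n → ConnOn G' Set.univ → 4 * Nat.card V' + 2 * k' ≤ dc G' + 4 →
        Small k' G' := fun V' _ G' k' h1 h2 h3 h4 h5 => IH _ h3 V' G' k' h1 h2 rfl h4 h5
    intro V _ G k hk1 hk3 hn hG hdc
    by_cases hsmall : n ≤ 5 * k + 1
    · exact ⟨V, inferInstance, G, SMinor.refl G, by omega, by omega⟩
    · obtain ⟨G', hG'le, hG', hdc'⟩ := exists_exact hG (m := 2 * n - 2 + k) (by omega) (by omega)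
      refine Small.mono ?_ hG'le
      have hdc'' : dc G' + 4 = 4 * n + 2 * k := by omega
      clear hG'le hdc hG hdc' G
      by_contra hcon
      have := Fintype.ofFinite V
      have hn' : Fintype.card V = n := by rw [← Nat.card_eq_fintype_card]; exact hn
      have hbad : Bad G' k := by
        refine ⟨hG', by rw [hn']; exact hdc'', by omega, ?_, ?_, ?_, ?_⟩
        · intro S hS hScard
          by_contra hE
          exact hcon (small_of_set hG' hS hScard (by omega))
        · intro S hS hSu
          by_contra hE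
          have hcS : Nat.card ((S : Set V) : Type) = #S := by
            rw [Nat.card_coe_set_eq, Set.ncard_coe_finset]
          have hlt : #S < Fintype.card V := by
            refine lt_of_le_of_ne (card_le_univ S) ?_
            intro h; exact hSu ((card_eq_iff_eq_univ S).1 h)
          refine hcon ((IH' _ (G'.induce (S : Set V)) k hk1 hk3 (by omega)
            (connOn_induce_univ hS) ?_).of_sminor (sminor_induce hG' hS.1))
          rw [dc_induce]; omega
        · intro S hS h2 hSu hE
          by_contra hcl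
          push Not at hcl
          have hlt : #S < Fintype.card V := by
            refine lt_of_le_of_ne (card_le_univ S) ?_
            intro h; exact hSu ((card_eq_iff_eq_univ S).1 h)
          exact hcon (closed_small IH' hk1 hk3 hn hG' (by omega) hS h2 (by omega) hE
            (fun y hy => by have := hcl y hy; omega))
        · intro x y hxy
          by_contra htri
          have hc : {z | G'.Adj x z ∧ G'.Adj y z}.ncard ≤ 1 := by
            have h1 : {z | G'.Adj x z ∧ G'.Adj y z} =
                ((univ.filter fun r => G'.Adj x r ∧ G'.Adj y r : Finset V) : Set V) := by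
              ext z; simp
            rw [h1, Set.ncard_coe_finset]
            unfold tri at htri
            omega
          obtain ⟨W, _, H, hHG, hW, hHc, hHd⟩ := contract_edge hG' hxy hc
          exact hcon ((IH' W H k hk1 hk3 (by omega) hHc (by omega)).of_sminor hHG)
      have hk : k = 1 ∨ k = 2 ∨ k = 3 := by omega
      rcases hk with rfl | rfl | rfl
      · exact bad1 hbad
      · exact bad2 hbad
      · exact bad3 hbad

theorem main [Finite V] {G : SimpleGraph V} {k : ℕ} (hk1 : 1 ≤ k) (hk3 : k ≤ 3)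
    (hG : ConnOn G Set.univ) (hdc : 4 * Nat.card V + 2 * k ≤ dc G + 4) : Small k G :=
  main_aux _ V G k hk1 hk3 rfl hG hdc

end Pool.Agent.D0H6.CD
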