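import Pool.Agent.D0H6.CD.Main

/-!
Minors of finite graphs: transitivity, counting, one-vertex gluings.
-/

set_option autoImplicit false

namespace Pool.Agent.D0H6.CD

open Finset Classical

variable {V W U : Type}

/-- minor relation, with the branch sets given by a partial map -/
def PM (H : SimpleGraph W) (G : SimpleGraph V) : Prop :=
  ∃ f : V → Option W, (∀ w, ConnOn G {x | f x = some w}) ∧
    ∀ w w', H.Adj w w' → ∃ x y, f x = some w ∧ f y = some w' ∧ G.Adj x y

theorem pm_iff (H : SimpleGraph W) (G : SimpleGraph V) :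
    PM H G ↔ ∃ B : W → Set V, (∀ w, (G.induce (B w)).Connected) ∧
      (∀ w w', w ≠ w' → Disjoint (B w) (B w')) ∧
      ∀ w w', H.Adj w w' → ∃ x ∈ B w, ∃ y ∈ B w', G.Adj x y := by
  constructor
  · rintro ⟨f, hf1, hf2⟩
    refine ⟨fun w => {x | f x = some w}, fun w => (connOn_iff _ _).1 (hf1 w), ?_, ?_⟩
    · intro w w' hww
      rw [Set.disjoint_left]
      intro x hx hx'
      rw [Set.mem_ofPred_eq] at hx hx'
      rw [hx] at hx'
      exact hww (Option.some.inj hx')
    · intro w w' h
      obtain ⟨x, y, hx, hy, hxy⟩ := hf2 w w' h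
      exact ⟨x, hx, y, hy, hxy⟩
  · rintro ⟨B, hB1, hB2, hB3⟩
    let f : V → Option W := fun x => if h : ∃ w, x ∈ B w then some h.choose else none
    have hf : ∀ x w, f x = some w ↔ x ∈ B w := by
      intro x w
      by_cases h : ∃ w, x ∈ B w
      · have h1 : f x = some h.choose := by simp [f, h]
        rw [h1, Option.some.injEq]
        constructor
        · intro h2; rw [← h2]; exact h.choose_spec
        · intro h2
          by_contra hne
          exact Set.disjoint_left.1 (hB2 _ _ hne) h.choose_spec h2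
      · have h1 : f x = none := by simp [f, h]
        rw [h1]
        constructor
        · intro h2; exact absurd h2 (by simp)
        · intro h2; exact absurd ⟨w, h2⟩ h
    refine ⟨f, fun w => ?_, fun w w' h => ?_⟩
    · have : {x | f x = some w} = B w := by
        ext x; exact hf x w
      rw [this]; exact (connOn_iff _ _).2 (hB1 w)
    · obtain ⟨x, hx, y, hy, hxy⟩ := hB3 w w' h
      exact ⟨x, y, (hf _ _).2 hx, (hf _ _).2 hy, hxy⟩

theorem SMinor.pm {H : SimpleGraph W} {G : SimpleGraph V} (h : SMinor H G) : PM H G := by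
  obtain ⟨f, hf1, hf2⟩ := h
  refine ⟨fun x => some (f x), fun w => ?_, fun w w' h => ?_⟩
  · have : {x | some (f x) = some w} = {x | f x = w} := by
      ext x; simp
    rw [this]; exact hf1 w
  · obtain ⟨x, y, hx, hy, hxy⟩ := hf2 w w' h
    exact ⟨x, y, congrArg some hx, congrArg some hy, hxy⟩

theorem PM.refl (G : SimpleGraph V) : PM G G := (SMinor.refl G).pm

theorem conn_biUnion {G : SimpleGraph V} {H : SimpleGraph W} {f : V → Option W}
    (hf : ∀ w, ConnOn G {v | f v = some w})
    (hH : ∀ w w', H.Adj w w' → ∃ x y, f x = some w ∧ f y = some w' ∧ G.Adj x y)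
    {T : Set W} (hT : ConnOn H T) : ConnOn G {v | ∃ w ∈ T, f v = some w} := by
  obtain ⟨⟨w0, hw0⟩, hT2⟩ := hT
  obtain ⟨⟨v0, hv0⟩, -⟩ := hf w0
  refine ⟨⟨v0, w0, hw0, hv0⟩, ?_⟩
  rintro x ⟨wx, hwx, hx⟩ y ⟨wy, hwy, hy⟩
  set D := {v | ∃ w ∈ T, f v = some w} with hD
  have fib : ∀ w a b, w ∈ T → f a = some w → f b = some w →
      Relation.ReflTransGen (fun a b => G.Adj a b ∧ a ∈ D ∧ b ∈ D) a b := by
    intro w a b hw ha hb
    refine rtg_mono ?_ ((hf w).2 a ha b hb)
    intro c hc
    exact ⟨w, hw, hc⟩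
  have key : ∀ w, Relation.ReflTransGen (fun a b => H.Adj a b ∧ a ∈ T ∧ b ∈ T) wx w →
      ∀ z, f z = some w →
      Relation.ReflTransGen (fun a b => G.Adj a b ∧ a ∈ D ∧ b ∈ D) x z := by
    intro w hw
    induction hw with
    | refl =>
      intro z hz
      exact fib wx x z hwx hx hz
    | @tail w1 w2 _ hbc ih =>
      intro z hz
      obtain ⟨a, b, ha, hb, hab⟩ := hH _ _ hbc.1
      refine (ih a ha).trans ?_
      exact Relation.ReflTransGen.head ⟨hab, ⟨w1, hbc.2.1, ha⟩, ⟨w2, hbc.2.2, hb⟩⟩
        (fib w2 b z hbc.2.2 hb hz)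
  exact key wy (hT2 _ hwx _ hwy) y hy

theorem PM.trans {K : SimpleGraph U} {H : SimpleGraph W} {G : SimpleGraph V}
    (h1 : PM K H) (h2 : PM H G) : PM K G := by
  obtain ⟨g, hg, hg2⟩ := h1
  obtain ⟨f, hf, hf2⟩ := h2
  refine ⟨fun v => (f v).bind g, fun u => ?_, fun u u' huu => ?_⟩
  · have := conn_biUnion hf hf2 (hg u)
    have h3 : {x | (f x).bind g = some u} = {v | ∃ w ∈ {x | g x = some u}, f v = some w} := by
      ext x
      simp only [Set.mem_ofPred_eq, Option.bind_eq_some_iff]
      constructor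
      · rintro ⟨w, h1, h2⟩; exact ⟨w, h2, h1⟩
      · rintro ⟨w, h1, h2⟩; exact ⟨w, h2, h1⟩
    rw [h3]; exact this
  · obtain ⟨w, w', hw, hw', hadj⟩ := hg2 u u' huu
    obtain ⟨x, y, hx, hy, hxy⟩ := hf2 w w' hadj
    exact ⟨x, y, by simp [hx, hw], by simp [hy, hw'], hxy⟩

theorem pm_induce (G : SimpleGraph V) (S : Set V) : PM (G.induce S) G := by
  refine ⟨fun v => if h : v ∈ S then some ⟨v, h⟩ else none, fun w => ?_, fun w w' h => ?_⟩
  · have : {x | (if h : x ∈ S then some (⟨x, h⟩ : S) else none) = some w} = {w.1} := by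
      ext x
      simp only [Set.mem_ofPred_eq, Set.mem_singleton_iff]
      by_cases h : x ∈ S
      · rw [dif_pos h, Option.some.injEq, Subtype.ext_iff]
      · rw [dif_neg h]
        constructor
        · intro h2; exact absurd h2 (by simp)
        · rintro rfl; exact absurd w.2 h
    rw [this]; exact connOn_singleton G _
  · exact ⟨w.1, w'.1, by simp, by simp, h⟩

theorem pm_of_le {H G : SimpleGraph V} (h : H ≤ G) : PM H G :=
  ((SMinor.refl G).mono_left h).pm

theorem pm_of_equiv {H : SimpleGraph W} {G : SimpleGraph V} (e : W ≃ V)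
    (h : ∀ x y, H.Adj x y → G.Adj (e x) (e y)) : PM H G := by
  have h1 := (SMinor.of_equiv (G := G) e).pm
  exact (pm_of_le (G := G.comap e) (fun x y hxy => h x y hxy)).trans h1

theorem exists_rep {G : SimpleGraph V} {f : V → Option W}
    (hf : ∀ w, ConnOn G {x | f x = some w}) :
    ∃ r : W → V, Function.Injective r ∧ ∀ w, f (r w) = some w := by
  refine ⟨fun w => (hf w).1.choose, ?_, fun w => (hf w).1.choose_spec⟩
  intro w w' h
  have h1 : f (hf w).1.choose = some w := (hf w).1.choose_spec
  have h2 : f (hf w').1.choose = some w' := (hf w').1.choose_spec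
  simp only at h
  rw [h, h2] at h1
  exact (Option.some.inj h1).symm

theorem PM.card_le [Finite V] {H : SimpleGraph W} {G : SimpleGraph V} (h : PM H G) :
    Nat.card W ≤ Nat.card V := by
  obtain ⟨f, hf, -⟩ := h
  obtain ⟨r, hr, -⟩ := exists_rep hf
  exact Nat.card_le_card_of_injective r hr

theorem PM.dc_le [Finite V] {H : SimpleGraph W} {G : SimpleGraph V} (h : PM H G) :
    dc H ≤ dc G := by
  obtain ⟨f, hf, hf2⟩ := h
  let i : W × W → Option W × Option W := fun p => (some p.1, some p.2)
  have hi : Function.Injective i := by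
    intro p q hpq
    simp only [i, Prod.mk.injEq, Option.some.injEq] at hpq
    exact Prod.ext hpq.1 hpq.2
  have h1 : dc H = (i '' {p : W × W | H.Adj p.1 p.2}).ncard :=
    (Set.ncard_image_of_injective _ hi).symm
  have h2 : i '' {p : W × W | H.Adj p.1 p.2} ⊆
      (fun p : V × V => (f p.1, f p.2)) '' {p : V × V | G.Adj p.1 p.2} := by
    rintro _ ⟨p, hp, rfl⟩
    obtain ⟨x, y, hx, hy, hxy⟩ := hf2 p.1 p.2 hp
    exact ⟨(x, y), hxy, by simp [i, hx, hy]⟩
  rw [h1]
  exact (Set.ncard_le_ncard h2 (Set.toFinite _)).trans (Set.ncard_image_le (Set.toFinite _))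

theorem PM.iso [Finite V] {H : SimpleGraph W} {G : SimpleGraph V} (h : PM H G)
    (h1 : Nat.card V ≤ Nat.card W) (h2 : dc G ≤ dc H) : Nonempty (H ≃g G) := by
  obtain ⟨f, hf, hf2⟩ := h
  obtain ⟨r, hr, hfr⟩ := exists_rep hf
  have : Finite W := Finite.of_injective r hr
  have hbij : Function.Bijective r := hr.bijective_of_nat_card_le h1
  have hinv : ∀ x w, f x = some w → x = r w := by
    intro x w hx
    obtain ⟨w', rfl⟩ := hbij.2 x
    rw [hfr] at hx
    rw [Option.some.inj hx]
  have hadj : ∀ w w', H.Adj w w' → G.Adj (r w) (r w') := by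
    intro w w' hww
    obtain ⟨x, y, hx, hy, hxy⟩ := hf2 w w' hww
    rw [hinv x w hx, hinv y w' hy] at hxy
    exact hxy
  let e : W ≃ V := Equiv.ofBijective r hbij
  have hle : H ≤ G.comap e := fun w w' hww => hadj w w' hww
  have hdc : dc (G.comap e) = dc G := dc_congr e (fun x y => Iff.rfl)
  have heq : {p : W × W | H.Adj p.1 p.2} = {p : W × W | (G.comap e).Adj p.1 p.2} := by
    refine Set.eq_of_subset_of_ncard_le (fun p hp => hle hp) ?_ (Set.toFinite _)
    change dc (G.comap e) ≤ dc H
    rw [hdc]; exact h2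
  refine ⟨⟨e, ?_⟩⟩
  intro a b
  have h3 : ((a, b) : W × W) ∈ {p : W × W | H.Adj p.1 p.2} ↔
      (a, b) ∈ {p : W × W | (G.comap e).Adj p.1 p.2} := by rw [heq]
  exact h3.symm

/-- a disconnected set splits -/
theorem exists_split {G : SimpleGraph V} {S : Finset V} (hS : S.Nonempty)
    (h : ¬ ConnOn G (S : Set V)) : ∃ A B : Finset V, A.Nonempty ∧ B.Nonempty ∧ A ∪ B = S ∧
      Disjoint A B ∧ ∀ a ∈ A, ∀ b ∈ B, ¬ G.Adj a b := by
  unfold ConnOn at h
  push Not at h
  obtain ⟨x, hx, y, hy, hxy⟩ := h (by simpa using hS)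
  let A := S.filter (fun z => Relation.ReflTransGen
    (fun a b => G.Adj a b ∧ a ∈ (S : Set V) ∧ b ∈ (S : Set V)) x z)
  refine ⟨A, S \ A, ⟨x, ?_⟩, ⟨y, ?_⟩, ?_, disjoint_sdiff, ?_⟩
  · rw [mem_filter]; exact ⟨hx, Relation.ReflTransGen.refl⟩
  · rw [mem_sdiff, mem_filter]; exact ⟨hy, fun h => hxy h.2⟩
  · exact union_sdiff_of_subset (filter_subset _ _)
  · intro a ha b hb hab
    rw [mem_filter] at ha
    rw [mem_sdiff, mem_filter] at hb
    exact hb.2 ⟨hb.1, ha.2.tail ⟨hab, ha.1, hb.1⟩⟩

theorem E2_split {G : SimpleGraph V} {A B : Finset V} (hd : Disjoint A B)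
    (h : ∀ a ∈ A, ∀ b ∈ B, ¬ G.Adj a b) : E2 G (A ∪ B) = E2 G A + E2 G B := by
  unfold E2
  rw [sum_union hd]
  congr 1
  · refine sum_congr rfl (fun p hp => ?_)
    congr 1
    ext q
    rw [mem_nb, mem_nb, mem_union]
    constructor
    · rintro ⟨h1 | h1, h2⟩
      · exact ⟨h1, h2⟩
      · exact absurd h2 (h p hp q h1)
    · rintro ⟨h1, h2⟩; exact ⟨Or.inl h1, h2⟩
  · refine sum_congr rfl (fun p hp => ?_)
    congr 1
    ext q
    rw [mem_nb, mem_nb, mem_union]
    constructor
    · rintro ⟨h1 | h1, h2⟩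
      · exact absurd h2.symm (h q h1 p hp)
      · exact ⟨h1, h2⟩
    · rintro ⟨h1, h2⟩; exact ⟨Or.inr h1, h2⟩

/-- every graph with more than `2v` edges has a connected part with the same property -/
theorem exists_dense_conn [Finite V] {G : SimpleGraph V} (h : 4 * Nat.card V < dc G) :
    ∃ S : Finset V, ConnOn G (S : Set V) ∧ 4 * #S < E2 G S := by
  have := Fintype.ofFinite V
  let F : Finset (Finset V) := univ.filter (fun S => 4 * #S < E2 G S)
  have hF : F.Nonempty := ⟨univ, by
    rw [mem_filter, card_univ, E2_univ, ← Nat.card_eq_fintype_card]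
    exact ⟨mem_univ _, h⟩⟩
  obtain ⟨S, hS, hmin⟩ := exists_min_image F (fun S => #S) hF
  have hS2 : 4 * #S < E2 G S := (mem_filter.1 hS).2
  have hne : S.Nonempty := by
    rw [nonempty_iff_ne_empty]
    rintro rfl
    unfold E2 at hS2
    rw [sum_empty] at hS2
    omega
  refine ⟨S, ?_, hS2⟩
  by_contra hcon
  obtain ⟨A, B, hA, hB, hAB, hd, hadj⟩ := exists_split hne hcon
  have h1 := E2_split hd hadj
  have h2 := card_union_of_disjoint hd
  rw [hAB] at h1 h2
  have hA' := hA.card_pos
  have hB' := hB.card_pos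
  have h3 : ¬ (4 * #A < E2 G A) := by
    intro h4
    have := hmin A (by rw [mem_filter]; exact ⟨mem_univ _, h4⟩)
    omega
  have h5 : ¬ (4 * #B < E2 G B) := by
    intro h4
    have := hmin B (by rw [mem_filter]; exact ⟨mem_univ _, h4⟩)
    omega
  omega

/-- a graph with more than `2v` edges has, for `k = 1, 2, 3`, a minor with at most `5k+1`
vertices and at least `2v-2+k` edges -/
theorem dense_minor [Finite V] {G : SimpleGraph V} (h : 4 * Nat.card V < dc G) {k : ℕ}
    (hk1 : 1 ≤ k) (hk3 : k ≤ 3) :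
    ∃ (W : Type) (_ : Finite W) (H : SimpleGraph W), Nonempty W ∧ PM H G ∧
      Nat.card W ≤ 5 * k + 1 ∧ 4 * Nat.card W + 2 * k ≤ dc H + 4 := by
  obtain ⟨S, hS, hE⟩ := exists_dense_conn h
  have hcS : Nat.card ((S : Set V) : Type) = #S := by
    rw [Nat.card_coe_set_eq, Set.ncard_coe_finset]
  have hpar : E2 G S = 2 * (G.induce (S : Set V)).edgeSet.ncard := by
    rw [← dc_induce, dc_eq_two_mul]
  obtain ⟨W, hW, H, h1, h2, h3⟩ := main (G := G.induce (S : Set V)) hk1 hk3
    (connOn_induce_univ hS) (by rw [dc_induce]; omega)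
  obtain ⟨s, hs⟩ := hS.1
  have hne : Nonempty W := ⟨h1.choose ⟨s, hs⟩⟩
  exact ⟨W, hW, H, hne, h1.pm.trans (pm_induce G _), h2, h3⟩

/-! One-vertex gluings -/

/-- the copy of `v` in the `i`th copy -/
noncomputable def cp (r : V) (t : ℕ) (i : Fin t) (v : V) : Option (Fin t × {v : V // v ≠ r}) :=
  if h : v = r then none else some (i, ⟨v, h⟩)

theorem cp_root (r : V) (t : ℕ) (i : Fin t) : cp r t i r = none := by simp [cp]

theorem cp_ne (r : V) (t : ℕ) (i : Fin t) (v : V) (h : v ≠ r) :
    cp r t i v = some (i, ⟨v, h⟩) := by simp [cp, h]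

theorem cp_inj (r : V) (t : ℕ) (i : Fin t) {u v : V} (h : cp r t i u = cp r t i v) : u = v := by
  by_cases hu : u = r
  · by_cases hv : v = r
    · rw [hu, hv]
    · rw [hu, cp_root, cp_ne r t i v hv] at h
      exact absurd h (by simp)
  · by_cases hv : v = r
    · rw [hv, cp_root, cp_ne r t i u hu] at h
      exact absurd h (by simp)
    · rw [cp_ne r t i u hu, cp_ne r t i v hv] at h
      have := congrArg (fun x => x.2.1) (Option.some.inj h)
      exact this

theorem cp_eq_some {r : V} {t : ℕ} {i j : Fin t} {u : V} {v : {v : V // v ≠ r}}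
    (h : cp r t i u = some (j, v)) : i = j ∧ u = v.1 := by
  by_cases hu : u = r
  · rw [hu, cp_root] at h; exact absurd h (by simp)
  · rw [cp_ne r t i u hu] at h
    have h1 := Option.some.inj h
    rw [Prod.mk.injEq] at h1
    exact ⟨h1.1, congrArg Subtype.val h1.2⟩

theorem cp_surj {r : V} {t : ℕ} (x : Option (Fin t × {v : V // v ≠ r})) (i : Fin t) :
    ∃ j v, cp r t j v = x := by
  rcases x with _ | ⟨j, v⟩
  · exact ⟨i, r, cp_root r t i⟩
  · exact ⟨j, v.1, cp_ne r t j v.1 v.2⟩

/-- `t` copies of `H` glued along the vertex `r` -/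
def glueG (H : SimpleGraph V) (r : V) (t : ℕ) :
    SimpleGraph (Option (Fin t × {v : V // v ≠ r})) where
  Adj a b := ∃ i u v, cp r t i u = a ∧ cp r t i v = b ∧ H.Adj u v
  symm := ⟨by
    rintro a b ⟨i, u, v, hu, hv, huv⟩
    exact ⟨i, v, u, hv, hu, huv.symm⟩⟩
  loopless := ⟨by
    rintro a ⟨i, u, v, hu, hv, huv⟩
    rw [← hv] at hu
    exact huv.ne (cp_inj r t i hu)⟩

theorem card_glue [Finite V] (r : V) (t : ℕ) :
    Nat.card (Option (Fin t × {v : V // v ≠ r})) = t * (Nat.card V - 1) + 1 := by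
  rw [Finite.card_option, Nat.card_prod, Nat.card_fin]
  have h1 : Nat.card {v : V // v ≠ r} = ({r}ᶜ : Set V).ncard := rfl
  have h2 := Set.ncard_add_ncard_compl ({r} : Set V)
  rw [Set.ncard_singleton] at h2
  rw [h1]
  congr 2
  omega

theorem dc_glue [Finite V] (H : SimpleGraph V) (r : V) (t : ℕ) :
    t * dc H ≤ dc (glueG H r t) := by
  have h1 : t * dc H = ((Set.univ : Set (Fin t)) ×ˢ {p : V × V | H.Adj p.1 p.2}).ncard := by
    rw [Set.ncard_prod, Set.ncard_univ, Nat.card_fin]
    rfl
  rw [h1]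
  refine Set.ncard_le_ncard_of_injOn (fun q => (cp r t q.1 q.2.1, cp r t q.1 q.2.2)) ?_ ?_
    (Set.toFinite _)
  · rintro ⟨i, u, v⟩ ⟨-, h⟩
    exact ⟨i, u, v, rfl, rfl, h⟩
  · rintro ⟨i, u, v⟩ ⟨-, h⟩ ⟨j, u', v'⟩ ⟨-, h'⟩ hq
    simp only [Prod.mk.injEq] at hq
    obtain ⟨h1, h2⟩ := hq
    have hij : i = j := by
      by_cases hu : u = r
      · have hv : v ≠ r := by rintro rfl; exact (show H.Adj u v from h).ne hu
        rw [cp_ne r t i v hv] at h2
        exact (cp_eq_some h2.symm).1.symm
      · rw [cp_ne r t i u hu] at h1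
        exact (cp_eq_some h1.symm).1.symm
    subst hij
    rw [cp_inj r t i h1, cp_inj r t i h2]

/-- the retraction to the `i`th copy -/
noncomputable def retr (r : V) (t : ℕ) (i : Fin t) :
    Option (Fin t × {v : V // v ≠ r}) → V
  | none => r
  | some (j, v) => if j = i then v.1 else r

theorem retr_cp (r : V) (t : ℕ) (i j : Fin t) (v : V) :
    retr r t i (cp r t j v) = if j = i then v else r := by
  by_cases hv : v = r
  · subst hv
    rw [cp_root]
    simp [retr]
  · rw [cp_ne r t j v hv]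
    rfl

/-- two-connected graphs -/
def TwoConn (G : SimpleGraph V) : Prop :=
  3 ≤ Nat.card V ∧ ConnOn G Set.univ ∧ ∀ v : V, ConnOn G {v}ᶜ

/-- A two-connected minor of a one-vertex gluing of copies of `H` is a minor of `H`. -/
theorem pm_of_glue {K : SimpleGraph U} {H : SimpleGraph V} {r : V} {t : ℕ} (hK : TwoConn K)
    (h : PM K (glueG H r t)) : PM K H := by
  obtain ⟨f, hf, hf2⟩ := h
  obtain ⟨hcard, hconn, hcut⟩ := hK
  -- the vertex whose branch set contains the root, if any, is removed
  obtain ⟨T, hT, hTne, hT1⟩ : ∃ T : Set U, ConnOn K T ∧ (∀ u ∈ T, f none ≠ some u) ∧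
      ∀ u, u ∉ T → f none = some u := by
    rcases hfn : f none with _ | w0
    · exact ⟨Set.univ, hconn, fun u _ h => by simp at h, fun u h => absurd trivial h⟩
    · refine ⟨{w0}ᶜ, hcut w0, fun u hu h => hu (Option.some.inj h).symm, fun u hu => ?_⟩
      by_contra h1
      exact hu (fun h2 => h1 (by rw [h2]))
  have hT2 : ∀ u u', u ≠ u' → u ∈ T ∨ u' ∈ T := by
    intro u u' huu
    by_contra hcon
    push Not at hcon
    have h1 := hT1 u hcon.1
    rw [hT1 u' hcon.2] at h1
    exact huu (Option.some.inj h1).symm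
  -- the index of a branch set
  have hidx : ∀ u ∈ T, ∀ i v j v', f (some (i, v)) = some u → f (some (j, v')) = some u →
      i = j := by
    intro u hu i v j v' h1 h2
    have h3 := (hf u).2 (some (i, v)) h1 (some (j, v')) h2
    have key : ∀ z, Relation.ReflTransGen (fun a b => (glueG H r t).Adj a b ∧
        a ∈ {x | f x = some u} ∧ b ∈ {x | f x = some u}) (some (i, v)) z →
        ∃ v'', z = some (i, v'') := by
      intro z hz
      induction hz with
      | refl => exact ⟨v, rfl⟩
      | @tail b c _ hbc ih =>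
        obtain ⟨v'', hb⟩ := ih
        subst hb
        obtain ⟨⟨l, p, q, hp, hq, hpq⟩, hb2, hc2⟩ := hbc
        have hl := (cp_eq_some hp).1
        subst hl
        rcases c with _ | ⟨m, w⟩
        · exact absurd hc2 (hTne u hu)
        · have := (cp_eq_some hq).1
          subst this
          exact ⟨w, rfl⟩
    obtain ⟨v'', h4⟩ := key _ h3
    have := congrArg (fun x => x.1) (Option.some.inj h4)
    exact this.symm
  obtain ⟨⟨u0, hu0⟩, hT3⟩ := hT
  obtain ⟨i, v0, hiv0⟩ : ∃ i v, f (some (i, v)) = some u0 := by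
    obtain ⟨x, hx⟩ := (hf u0).1
    rcases x with _ | ⟨i, v⟩
    · exact absurd hx (hTne u0 hu0)
    · exact ⟨i, v, hx⟩
  have hall : ∀ u ∈ T, ∀ j v, f (some (j, v)) = some u → j = i := by
    intro u hu
    have h3 := hT3 u0 hu0 u hu
    induction h3 with
    | refl => intro j v h; exact hidx u0 hu j v i v0 h hiv0
    | @tail b c _ hbc ih =>
      intro j v h
      obtain ⟨x, y, hx, hy, l, p, q, hp, hq, hpq⟩ := hf2 b c hbc.1
      rcases x with _ | ⟨m, w⟩
      · exact absurd hx (hTne b hbc.2.1)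
      · rcases y with _ | ⟨m', w'⟩
        · exact absurd hy (hTne c hbc.2.2)
        · have h4 := ih hbc.2.1 m w hx
          have h5 := (cp_eq_some hp).1
          have h6 := (cp_eq_some hq).1
          have h7 := hidx c hbc.2.2 j v m' w' h hy
          rw [h7, ← h6, h5, h4]
  refine ⟨fun v => f (cp r t i v), fun u => ?_, fun u u' huu => ?_⟩
  · have h1 := conn_image (G := glueG H r t) (H := H) (f := retr r t i)
      (S := {x | f x = some u}) (fun x y _ _ hxy => ?_) (hf u)
    · have h2 : retr r t i '' {x | f x = some u} = {x | f (cp r t i x) = some u} := by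
        ext v
        simp only [Set.mem_image, Set.mem_ofPred_eq]
        constructor
        · rintro ⟨x, hx, rfl⟩
          obtain ⟨j, w, rfl⟩ := cp_surj x i
          rw [retr_cp]
          by_cases hji : j = i
          · subst hji; rw [if_pos rfl]; exact hx
          · rw [if_neg hji, cp_root]
            by_cases hw : w = r
            · rw [hw, cp_root] at hx; exact hx
            · by_cases huT : u ∈ T
              · rw [cp_ne r t j w hw] at hx
                exact absurd (hall u huT j _ hx) hji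
              · exact hT1 u huT
        · intro hv
          refine ⟨cp r t i v, hv, ?_⟩
          rw [retr_cp, if_pos rfl]
      rw [← h2]; exact h1
    · obtain ⟨j, p, q, rfl, rfl, hpq⟩ := hxy
      rw [retr_cp, retr_cp]
      by_cases hji : j = i
      · rw [if_pos hji, if_pos hji]; exact Or.inr hpq
      · rw [if_neg hji, if_neg hji]; exact Or.inl rfl
  · obtain ⟨x, y, hx, hy, j, p, q, hp, hq, hpq⟩ := hf2 u u' huu
    have hji : j = i := by
      rcases hT2 u u' huu.ne with hu | hu
      · rcases x with _ | ⟨m, w⟩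
        · exact absurd hx (hTne u hu)
        · rw [(cp_eq_some hp).1]; exact hall u hu m w hx
      · rcases y with _ | ⟨m, w⟩
        · exact absurd hy (hTne u' hu)
        · rw [(cp_eq_some hq).1]; exact hall u' hu m w hy
    subst hji
    subst hp
    subst hq
    exact ⟨p, q, hx, hy, hpq⟩

/-- a graph violating `5e + 11 ≤ 11v` all of whose proper parts satisfy it is two-connected -/
theorem twoConn_of_bound [Finite V] (K : SimpleGraph V)
    (hprop : ∀ S : Finset V, S.Nonempty → #S < Nat.card V → 5 * E2 K S + 22 ≤ 22 * #S)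
    (h3 : 3 ≤ Nat.card V) (hlt : 22 * Nat.card V < 5 * dc K + 22) : TwoConn K := by
  have := Fintype.ofFinite V
  rw [Nat.card_eq_fintype_card] at hprop h3 hlt
  have hE : E2 K univ = dc K := E2_univ _
  refine ⟨by rw [Nat.card_eq_fintype_card]; exact h3, ?_, ?_⟩
  · rw [← coe_univ]
    by_contra hcon
    obtain ⟨A, B, hA, hB, hAB, hd, hadj⟩ := exists_split
      (card_pos.1 (by rw [card_univ]; omega)) hcon
    have h4 := E2_split hd hadj
    have h5 := card_union_of_disjoint hd
    rw [hAB] at h4 h5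
    rw [card_univ] at h5
    have hA' := hA.card_pos
    have hB' := hB.card_pos
    have h6 := hprop A hA (by omega)
    have h7 := hprop B hB (by omega)
    omega
  · intro v
    by_contra hcon
    have hcoe : (((univ : Finset V).erase v : Finset V) : Set V) = ({v} : Set V)ᶜ := by
      ext x; simp
    rw [← hcoe] at hcon
    have hcard : #((univ : Finset V).erase v) + 1 = Fintype.card V := by
      rw [card_erase_of_mem (mem_univ _), card_univ]
      omega
    obtain ⟨A, B, hA, hB, hAB, hd, hadj⟩ := exists_split (card_pos.1 (by omega)) hcon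
    have h4 := E2_split hd hadj
    have h5 := card_union_of_disjoint hd
    have hvAB : v ∉ A ∪ B := by rw [hAB]; exact notMem_erase _ _
    have hvA : v ∉ A := fun h => hvAB (mem_union_left _ h)
    have hvB : v ∉ B := fun h => hvAB (mem_union_right _ h)
    have huniv : insert v (A ∪ B) = univ := by rw [hAB, insert_erase (mem_univ _)]
    have h6 := E2_insert (G := K) hvAB
    have h7 := E2_insert (G := K) hvA
    have h8 := E2_insert (G := K) hvB
    have h9 : #(nb K (A ∪ B) v) = #(nb K A v) + #(nb K B v) := by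
      unfold nb
      rw [filter_union, card_union_of_disjoint]
      exact disjoint_filter_filter hd
    rw [huniv] at h6
    rw [hAB] at h5
    have hAc := card_insert_of_notMem hvA
    have hBc := card_insert_of_notMem hvB
    have hA' := hA.card_pos
    have hB' := hB.card_pos
    have h10 := hprop (insert v A) ⟨v, mem_insert_self _ _⟩ (by omega)
    have h11 := hprop (insert v B) ⟨v, mem_insert_self _ _⟩ (by omega)
    omega

end Pool.Agent.D0H6.CD
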